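import Pool.Agent.PFJ.StmtsG
import Pool.Agent.Helper82_PFJ.Main

/-!
# PCO squad (MP_e54c4c_gt): boxes of codimension one, definitions

THEOREM CO.  `Γ` convex cocompact on the domain of `C ⊆ ℝ^n`, the largest number of vertices of a
properly embedded simplex with vertices in the limit cone is `3`, `d` is the largest dimension of
the span of an open face `Face C (w 0 + w 1)` of such a triangle, and `n = d + 2`, `3 ≤ d`.  Then
the family of boxes `(U, v)` (`finrank U = d`) is discrete and every box carries a triangle preserved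
by `ℤ^2 ≤ Γ`.

`x ≤ y` means `y - x ∈ closure C`; `G = s • act g` is a scaled group element.  For a box `(U, v)`:
`U⁺ = U ∩ closure C`; the elements of `U⁺` which are not units (`¬ Unt C U y`) are the boundary
elements `bd U`; `W = U ⊔ span v` is the subspace of the box.
-/

set_option autoImplicit false

open Matrix Filter Topology

namespace Pool.Agent.PCO

open Pool.Agent.PFS Pool.Agent.PFJ

/-- the standing hypotheses of the codimension one theorem -/
structure Hyp {n : ℕ} (C : Set (V n)) (Γ : Subgroup (GL (Fin n) ℝ)) (d : ℕ) : Prop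
    extends CC C Γ where
  maxc : MaxCard C Γ 3
  maxd : ∀ w : Fin 3 → V n, IsPES C Γ w →
    Module.finrank ℝ (Submodule.span ℝ (Face C (w 0 + w 1))) ≤ d
  three : 3 ≤ d
  codim : n = d + 2

/-- `(U, v)` is a box: the closed cone of `U ⊕ ℝ v` is the sum of the closed cone of `U` and of the
ray of `v`, and there is an adapted triangle `(e, e', v)`, `e, e' ∈ U` -/
structure Bx {n : ℕ} (C : Set (V n)) (Γ : Subgroup (GL (Fin n) ℝ)) (U : Submodule ℝ (V n))
    (v : V n) : Prop where
  dim : 3 ≤ Module.finrank ℝ U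
  pes : ∃ e ∈ U, ∃ e' ∈ U, IsPES C Γ ![e, e', v]
  comp : ∀ y ∈ U, ∀ τ : ℝ, y + τ • v ∈ closure C → y ∈ closure C ∧ 0 ≤ τ

/-- the subspace of the box `(U, v)` -/
noncomputable def Wb {n : ℕ} (U : Submodule ℝ (V n)) (v : V n) : Submodule ℝ (V n) :=
  U ⊔ Submodule.span ℝ {v}

/-- nonzero elements of the boundary of the cone of `U` -/
def Bd {n : ℕ} (C : Set (V n)) (U : Submodule ℝ (V n)) (e : V n) : Prop :=
  e ∈ U ∧ e ∈ closure C ∧ e ≠ 0 ∧ ¬ Unt C U e

/-- the factors and the factor map of the box `(U, v)` in the language of PFJ -/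
noncomputable def bL {n : ℕ} (U : Submodule ℝ (V n)) (v : V n) : Fin 3 → Submodule ℝ (V n) :=
  ![U, Submodule.span ℝ {v}, ⊥]

/-- the factor map -/
def bB : Fin 3 → Fin 3 := ![0, 0, 1]

/-- `L_v` of the box: `u` is small relative to `v`; `x` is any fixed point of `C` -/
def Sml {n : ℕ} (C : Set (V n)) (v u : V n) : Prop :=
  ∀ x ∈ C, ∀ τ : ℝ, 0 < τ → ∃ κ : ℝ, 0 < κ ∧ κ • v + τ • x - u ∈ closure C ∧
    κ • v + τ • x + u ∈ closure C

/-- `p` is the monotone projection of the box `(U, v)` with kernel `L_v` -/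
structure Prj {n : ℕ} (C : Set (V n)) (U : Submodule ℝ (V n)) (v : V n)
    (p : V n →ₗ[ℝ] V n) : Prop where
  mem : ∀ x, p x ∈ U
  idU : ∀ y ∈ U, p y = y
  pos : ∀ x ∈ closure C, p x ∈ closure C
  ker : ∀ x, p x = 0 ↔ Sml C v x

/-- `ν` is a support functional of the box: positive, zero on `U`, one at `v` -/
structure Nu {n : ℕ} (C : Set (V n)) (U : Submodule ℝ (V n)) (v : V n)
    (ν : V n →ₗ[ℝ] ℝ) : Prop where
  pos : ∀ x ∈ closure C, 0 ≤ ν x
  zero : ∀ y ∈ U, ν y = 0
  one : ν v = 1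

/-- `ψ` is a support functional of the cone of `U` at `a` -/
structure Sup {n : ℕ} (C : Set (V n)) (U : Submodule ℝ (V n)) (a : V n)
    (ψ : V n →ₗ[ℝ] ℝ) : Prop where
  pos : ∀ y ∈ U, y ∈ closure C → 0 ≤ ψ y
  at_ : ψ a = 0
  unt : ∀ y, Unt C U y → 0 < ψ y

end Pool.Agent.PCO
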