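import Pool.Agent.PCO.Defs

/-!
# PCO squad (MP_e54c4c_gt): SECTION A, basic facts on boxes, limits, first failure

All rows of PFS, PFB, PFJ are PROVED THEOREMS (import is there), in particular
`Pool.Agent.PFJ.H82.{stcF, blmF, prbF, psiF, supF, fixF, bpbF, nunF, boaF}`, `PFJ.H90.bfa`,
`PFJ.H76.unf`, `PFJ.H10.fmx`, `PFJ.H10.lsf`, `PFJ.H69.lsc`, `PFJ.H32.img`, `PFJ.H39.nsf`,
`PFJ.H76e.ei2`, `PFJ.H83.mxe`, `PFB.H69.fce`, `PFS.H60.{zom, elm, lin, crt, fun_}`,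
`PFS.H37.{cloF, flmF, limF, lpsF}`, `PFS.H3.prp`, `PFS.H87.cmf`, `CC.hul`, `PCone.normal`, ...
Hypotheses of the form `XStmt` in the column uses are rows of the PCO squad.
`Ind2 x y` is linear independence (PFJ.Defs), `Unt C U y`: `y` is an order unit of `U ∩ closure C`.
-/

set_option autoImplicit false

open Matrix Filter Topology

namespace Pool.Agent.PCO

open Pool.Agent.PFS Pool.Agent.PFJ

/-- **Row TVX** (the vertices of a top simplex are extreme; all `K ≥ 3`).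

Proof.  `x = w_i ∈ LamC`, `y ∈ closure C`, `M x - y ∈ closure C`; suppose `y` is not a multiple of
`x`; so `y ≠ 0`, `M > 0` (otherwise `-y = (M x - y) + (-M) x ∈ closure C`), `x, y` independent.
`ε₁ = max {ε ≥ 0 : y - ε x ∈ closure C}`, `ε₂ = max {ε ≥ 0 : x - ε y ∈ closure C}` (closed sets
containing `0`, bounded by `PCone.normal`).  `ε₁ ε₂ < 1`: `y ≥ ε₁ x ≥ ε₁ ε₂ y` gives `≤ 1`, and `= 1`
gives `y - ε₁ x` and `-(y - ε₁ x) = ε₁ (x - ε₂ y)` in `closure C`, so `y = ε₁ x`.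
`e₁ = y - ε₁ x`, `e₂ = x - ε₂ y`: in `closure C`, nonzero, `e₁ ≤ M x`, `e₂ ≤ x`, so in `LamC` (FLM,
scaling), and `e₂ + ε₂ e₁ = (1 - ε₁ ε₂) x`, so `x ≤ κ (e₁ + e₂)` for some `κ > 0`.  For `η > 0`
`e₂ - η e₁ = (1 + η ε₁) x - (ε₂ + η) y ∉ closure C` (otherwise `(ε₂ + η) / (1 + η ε₁) ≤ ε₂`,
`1 ≤ ε₁ ε₂`), and `e₁ - η e₂ = (1 + η ε₂) y - (ε₁ + η) x ∉ closure C` likewise.
Zoom (ZOM) at `p_m = e₁ + e₂ + t_m ∑_{j≠i} w_j`, `t_m = 1/(m+1)`: it is in `Hull` and in `C`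
(`≥ min(1/κ, t_m) ∑ w`).  LIM for the family `e₁, e₂, t_m w_j` (`j ≠ i`), indexed by
`Option (Option {j // j ≠ i})`, of cardinality `K + 1`: limits `X`.  Omit conditions (as in
`Helper33_PFJ/Stc.lean`, `Helper37_PFS/C22.lean`: if the sum of the `X` without `o` is in `C` there is
`M' > 0` with `M' (p_m - f_m(o)) - f_m(o) ∈ C` for all large `m`): `o = e₁`:
`M' (e₂ + t_m ∑) - e₁ ∈ closure C`, `m → ∞`: `M' e₂ - e₁ ∈ closure C`, excluded.  `o = e₂`: the same.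
`o = w_j`: then `e₁ + e₂ + t_m ∑_{l≠i,j} w_l ∈ C` for large `m`, it is `≤ (M + 1) x + ∑_{l≠i,j} w_l`,
so `∑_{l≠j} w_l ∈ C` (scaling), contradicting `bd`.  So there is an `IsPES` with `K + 1` vertices,
contradicting `MaxCard`. -/
def TvxStmt : Prop :=
  ∀ (n : ℕ) (C : Set (V n)) (Γ : Subgroup (GL (Fin n) ℝ)), CC C Γ → ∀ K : ℕ, 3 ≤ K →
    MaxCard C Γ K → ∀ w : Fin K → V n, IsPES C Γ w → ∀ i, Ext C (w i)

/-- **Row WBF** (the subspace of a box).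

Proof.  (1) `Submodule.mem_sup`, `Submodule.mem_span_singleton`.  (2) `Submodule.map_sup`,
`Submodule.map_span`.  (3) `Submodule.span_singleton_smul_eq` or (1).  (4) `iSup` over `Fin 3`:
`bL U v 0 = U`, `bL U v 1 = span v`, `bL U v 2 = ⊥`.  (5) IMG. -/
def WbfStmt : Prop :=
  ∀ n : ℕ,
    (∀ (U : Submodule ℝ (V n)) (v x : V n), x ∈ Wb U v ↔ ∃ y ∈ U, ∃ τ : ℝ, x = y + τ • v) ∧
    (∀ (g : GL (Fin n) ℝ) (U : Submodule ℝ (V n)) (v : V n),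
      img g (Wb U v) = Wb (img g U) (act g v)) ∧
    (∀ (U : Submodule ℝ (V n)) (v : V n) (c : ℝ), c ≠ 0 → Wb U (c • v) = Wb U v) ∧
    (∀ (U : Submodule ℝ (V n)) (v : V n), (⨆ a, bL U v a) = Wb U v) ∧
    (∀ (g : GL (Fin n) ℝ) (U : Submodule ℝ (V n)),
      Module.finrank ℝ (img g U) = Module.finrank ℝ U)

/-- **Row BXC** (boxes in the language of PFJ).

Proof.  (1) `Box` for `L = bL U v`, `β = bB = ![0, 0, 1]`.  `mem` by cases.  `comp`: `x 0 ∈ U`,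
`x 1 = τ v`, `x 2 = 0`, the sum is `x 0 + τ v`; `Bx.comp` gives `x 0 ∈ closure C`, `0 ≤ τ`, and
`v ∈ closure C` (`HulFacts.lamCl`, `pes`).  `bot`: only `a = 2` is not in the range of `β`.  `one`: `i = 2`
(`β 0 = β 1`), `L 1 = span v`.  `two`: `β i = 0`.  `three`: `decide`-like.
(2) `w = ![w 0, w 1, w 2]`; `dim` from `two` for `i = 0, j = 1`; `pes` from `mem`; `comp`: apply
`Box.comp` to `![y, τ w_2, 0]` (`w_2 ∈ L 1`): `y ∈ closure C`, `τ w_2 ∈ closure C`, and `w_2 ∈ closure C`,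
`≠ 0`, salient: `0 ≤ τ`. -/
def BxcStmt : Prop :=
  ∀ (n : ℕ) (C : Set (V n)) (Γ : Subgroup (GL (Fin n) ℝ)), CC C Γ →
    ∀ (U : Submodule ℝ (V n)) (v : V n),
      (Bx C Γ U v → ∀ e ∈ U, ∀ e' ∈ U, IsPES C Γ ![e, e', v] →
        Box C Γ (bL U v) ![e, e', v] bB) ∧
      (∀ (L : Fin 3 → Submodule ℝ (V n)) (w : Fin 3 → V n), Box C Γ L w bB → Bx C Γ (L 0) (w 2))

/-- **Row BF1** (basic facts on boxes, I).

Proof.  Let `(e, e', v)` be the triangle, `BXC` the PFJ box `B`.  `v ∈ LamC` (`pes.2 2`), so in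
`closure C`, `≠ 0` (`HulFacts`).  `v ∉ U`: otherwise `comp` for `y = -v`, `τ = 1` gives
`-v ∈ closure C`, salient, `v = 0`.  Strict: STC (PFJ) for `B`, factor `0`.
`f + τ v ∈ C`: BFA (2) for the family `![f, τ v, 0]`: all components units; `τ v` is a unit of
`span v` iff `0 < τ`; `0` is a unit of `⊥`.  (Directly: `→` absorb and `comp`; `←` `M f ≥ e + e'`.)
Unit: `e + e'` (previous item with `τ = 1`, `e + e' + v ∈ C` by `PES.pos`).
`y ∈ U ∩ closure C`, `y ≠ 0`: `y ≤ M (e + e')` and `e + e' ∈ LamC` (in `Hull`, not in `C` by `bd`,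
`≠ 0`, CLO), so `y ∈ LamC` (FLM, scaling); `LamC` is disjoint from `C` (`HulFacts`).
Last item: if `y` is not a multiple of `e` then `Ind2 e y` (`e ≠ 0`, `y ≠ 0`), so `e + y` is a unit,
`(1 + M) e ≥ e + y`; then `1 + M > 0` and `e` is a unit (UNF 2, 1), contradiction.  `y = c e`, `0 ≤ c` by
salient. -/
def Bf1Stmt : Prop :=
  ∀ (n : ℕ) (C : Set (V n)) (Γ : Subgroup (GL (Fin n) ℝ)), CC C Γ → MaxCard C Γ 3 →
    ∀ (U : Submodule ℝ (V n)) (v : V n), Bx C Γ U v →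
      v ∈ LamC C Γ ∧ v ∈ closure C ∧ v ≠ 0 ∧ v ∉ U ∧
      (∀ x ∈ U, ∀ y ∈ U, x ∈ closure C → y ∈ closure C → Ind2 x y → Unt C U (x + y)) ∧
      (∀ f ∈ U, ∀ τ : ℝ, f + τ • v ∈ C ↔ (Unt C U f ∧ 0 < τ)) ∧
      (∃ f, Unt C U f) ∧
      (∀ y ∈ U, y ∈ closure C → y ≠ 0 → y ∈ LamC C Γ ∧ y ∉ C) ∧
      (∀ e, Bd C U e → ∀ y ∈ U, y ∈ closure C → ∀ M : ℝ, M • e - y ∈ closure C →
        ∃ c : ℝ, 0 ≤ c ∧ y = c • e)

/-- **Row BF2** (basic facts on boxes, II).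

Proof.  (1) CRT: `e + e'` is a unit (BF1 strict), so `e + e' + v ∈ C` (BF1); `e + v`, `e' + v ∉ C` (BF1,
`e`, `e'` not units); `e + e' ∉ C` (BF1, units are `≠ 0` because `U ≠ 0`, elements of `LamC`).  `LamC`:
BF1.
(2) `τ = max {t ≥ 0 : f - t e ∈ closure C}` (closed, bounded by `normal`; `τ > 0` since `f` is a unit),
`e' = f - τ e`: not a unit (UNF 4 with `z = e` contradicts maximality); `e' ≠ 0`, otherwise `f = τ e`
and `e = τ⁻¹ f` is a unit (UNF 1).  `Ind2 e e'`: if `e' = c e` then `f = (τ + c) e`, again a unit;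
(use `e ≠ 0`).
(3) `N` contains all boundary elements: a unit `f` is `τ e + e'` by (2) with the boundary element `e` of
the triangle (`e` is `Bd`: in `LamC`, so `≠ 0`; not a unit by BF1 since `e + v ∉ C`), so `f ∈ N`; every
`z ∈ U` is a difference of units: `f ± t z` are units for small `t > 0` (UNF 4).
(4) two independent boundary elements exist (`e, e'` of the triangle; LIN).  Outside a plane: apply (3)
to `N = span {x, y}` (`finrank N ≤ 2 < 3 ≤ finrank U`).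
(5) ELM (1), (2); `comp` for `c v`: `τ c`; for `g`: `act g` (CC.sact_cl_iff).
(6) Units: `Unt C (img g U) (act g y) ↔ Unt C U y` by `CC.act_cl_iff` and `mem_img`; then `Bd` with the
positive factor `s` (UNF 1).
(7) By (4) with `x = a`, `y = 0` there is a boundary element `e` independent of `a`; (1):
`w = ![a, e, v]` is `IsPES`; FMX (PFJ) with `l = 1`: `∑_{m≠1} w_m = a + v`. -/
def Bf2Stmt : Prop :=
  ∀ (n : ℕ) (C : Set (V n)) (Γ : Subgroup (GL (Fin n) ℝ)), CC C Γ → MaxCard C Γ 3 →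
    ∀ (U : Submodule ℝ (V n)) (v : V n), Bx C Γ U v →
      (∀ e e', Bd C U e → Bd C U e' → Ind2 e e' → IsPES C Γ ![e, e', v]) ∧
      (∀ f, Unt C U f → ∀ e, Bd C U e → ∃ (τ : ℝ) (e' : V n), 0 < τ ∧ Bd C U e' ∧ Ind2 e e' ∧
        f = τ • e + e') ∧
      (∀ N : Submodule ℝ (V n), (∀ e, Bd C U e → e ∈ N) → U ≤ N) ∧
      (∀ x y : V n, ∃ e, Bd C U e ∧ ∀ a b : ℝ, e ≠ a • x + b • y) ∧
      (∀ c : ℝ, 0 < c → Bx C Γ U (c • v)) ∧
      (∀ g ∈ Γ, ∀ s : ℝ, 0 < s → Bx C Γ (img g U) (s • act g v) ∧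
        (∀ y, Unt C (img g U) (s • act g y) ↔ Unt C U y) ∧
        (∀ y, Bd C (img g U) (s • act g y) ↔ Bd C U y)) ∧
      (∀ a, Bd C U a → ∀ z ∈ LamC C Γ, a + v + z ∉ C →
        ∃ M : ℝ, 0 < M ∧ M • (a + v) - z ∈ closure C)

/-- **Row BF3** (support functionals).

Proof.  Let `B` be the PFJ box (BXC).  (1) SUP for `B`, factor `0`, `y = a` gives `φ ≥ 0` on
`closure C`, `φ a = 0`, `φ > 0` on units of `U`; PSI for the factor `0` and `φ`: `ψ ≥ 0` on `closure C`,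
`ψ = φ` on `U`, `ψ v = 0`.
(2) PSI for the factor `1` (`= span v`) and a linear form `χ` with `χ v = 1` (`v ≠ 0`;
`χ ≥ 0` on `span v ∩ closure C` by salient).  Second part of (2): `x ∈ C`, `M x - v ∈ C` (absorb), so
`M ν x ≥ 1`, hence `0 < ν x`.
(3) `a + y` is a unit (BF1 strict), so `0 < ψ (a + y) = ψ y`.
(4) Let `f` be a unit and suppose `y ∉ closure C`.  `t = min {t ≥ 0 : y + t f ∈ closure C}` (closed,
nonempty since `f` is a unit), `t > 0`.  `e = y + t f ∈ U ∩ closure C` is not a unit (UNF 4 contradicts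
minimality).  If `e ≠ 0`: `e` is `Bd`, by (1) there is `ψ` with `Sup C U e ψ`, and
`0 ≤ ψ y = -t ψ f < 0`.  If `e = 0`, `y = -t f`; take any `Bd` element `c` (BF2 4) and `ψ` for it:
`0 ≤ ψ y = -t ψ f < 0`. -/
def Bf3Stmt : Prop :=
  ∀ (n : ℕ) (C : Set (V n)) (Γ : Subgroup (GL (Fin n) ℝ)), CC C Γ → MaxCard C Γ 3 →
    ∀ (U : Submodule ℝ (V n)) (v : V n), Bx C Γ U v →
      (∀ a, Bd C U a → ∃ ψ : (V n) →ₗ[ℝ] ℝ, Sup C U a ψ ∧ (∀ x ∈ closure C, 0 ≤ ψ x) ∧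
        ψ v = 0) ∧
      (∃ ν : (V n) →ₗ[ℝ] ℝ, Nu C U v ν) ∧
      (∀ ν : (V n) →ₗ[ℝ] ℝ, Nu C U v ν → ∀ x ∈ C, 0 < ν x) ∧
      (∀ (a : V n) (ψ : (V n) →ₗ[ℝ] ℝ), Bd C U a → Sup C U a ψ → ∀ y ∈ U, y ∈ closure C →
        Ind2 a y → 0 < ψ y) ∧
      (∀ y ∈ U, (∀ (c : V n) (ψ : (V n) →ₗ[ℝ] ℝ), Bd C U c → Sup C U c ψ → 0 ≤ ψ y) →
        y ∈ closure C)

/-- **Row BXM** (boxes of maximal dimension).

Proof.  Let `(e, e', v)` be the triangle, `f₀ = e + e'`, a unit (BF1).  `Hyp.maxd`: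
`finrank (span (Face C f₀)) ≤ d` (`![e, e', v] 0 + ![e, e', v] 1 = f₀`).  For `z ∈ U` UNF (5):
`f₀ + t z ∈ Face C f₀`, so `U ≤ span (Face C f₀)`, hence equality (dimension).
(1) `h = M f ∈ U`, `y ≤ h ≤ M' f₀` with `M' > 0`, so `f₀ + y ∈ Face C f₀` (`(f₀ + y) - f₀ = y`,
`f₀ - ε (f₀ + y) = ε (M' f₀ - y)` for `ε = 1/(1 + M')`), so `f₀ + y ∈ U`, `y ∈ U`.
(2), (3): a unit `f` is in `Face C f₀` (both comparable), so `Face C f = Face C f₀` (FCE 2), and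
`y ∈ Face C f₀` is in `U` and `≥ ε f₀`, so a unit (UNF 2); conversely units are comparable.
(4) (1) and BF1 (last item).  (5) TVX for `![e, e', v]`, `i = 2`.
(6) `f₀ + z ∉ C`: otherwise, as `f₀ ≤ M f`, `M ≥ 1`, `M (f + z) ≥ f₀ + z ∈ C`.  FMX (PFJ) with
`w = ![e, e', v]`, `l = 2` gives `M' f₀ - z ∈ closure C`; (1).
(7) `x + y` is a unit of `U` and of `U'` (BF1 strict); (2) for both: `U' = span (Face C (x + y)) = U`. -/
def BxmStmt : Prop :=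
  ∀ (n : ℕ) (C : Set (V n)) (Γ : Subgroup (GL (Fin n) ℝ)) (d : ℕ), Hyp C Γ d →
    ∀ (U : Submodule ℝ (V n)) (v : V n), Bx C Γ U v → Module.finrank ℝ U = d →
      (∀ f ∈ U, ∀ y ∈ closure C, ∀ M : ℝ, M • f - y ∈ closure C → y ∈ U) ∧
      (∀ f, Unt C U f → Submodule.span ℝ (Face C f) = U) ∧
      (∀ f, Unt C U f → ∀ y, (y ∈ Face C f ↔ Unt C U y)) ∧
      (∀ e, Bd C U e → Ext C e) ∧ Ext C v ∧
      (∀ f, Unt C U f → ∀ z ∈ LamC C Γ, f + z ∉ C → z ∈ U) ∧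
      (∀ (U' : Submodule ℝ (V n)) (v' : V n), Bx C Γ U' v' → Module.finrank ℝ U' = d →
        ∀ x ∈ U, ∀ y ∈ U, x ∈ closure C → y ∈ closure C → Ind2 x y → x ∈ U' → y ∈ U' →
        U' = U)

/-- **Row BXW** (extreme elements of the subspace of a box).

Proof.  `e = y + τ v` (WBF 1), `y ∈ closure C`, `0 ≤ τ` (`comp`).  `y ≤ e` and `τ v ≤ e`, so by `Ext`
`y = a e`, `τ v = b e`.  If `a ≠ 0` then `e = a⁻¹ y ∈ U`.  If `a = 0`, `e = τ v` and `τ > 0` as `e ≠ 0`. -/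
def BxwStmt : Prop :=
  ∀ (n : ℕ) (C : Set (V n)) (Γ : Subgroup (GL (Fin n) ℝ)), CC C Γ → MaxCard C Γ 3 →
    ∀ (U : Submodule ℝ (V n)) (v : V n), Bx C Γ U v → ∀ e ∈ Wb U v, e ∈ closure C → Ext C e →
      e ≠ 0 → e ∈ U ∨ ∃ c : ℝ, 0 < c ∧ e = c • v

/-- **Row BXU** (the subspace determines the box).

Proof.  `v' ∈ Wb U v` is extreme (BXM 5), so by BXW `v' = c v`, `c > 0`, or `v' ∈ U`.  Suppose `v' ∈ U`.
By BF2 (4) there are boundary elements `e₁` of `U`, not a multiple of `v'`, and `e₂`, not in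
`span {v', e₁}`; they are extreme (BXM 4) and in `Wb U' v'`, so by BXW in `U'` (not multiples of `v'`).
`e₁ + e₂` is a unit of `U` (BF1 strict), so `M (e₁ + e₂) - v' ∈ closure C` for some `M`; this is
`y + τ v'` with `y ∈ U'`, `τ = -1`, contradicting `comp` of `(U', v')`.
So `v' = c v`.  Every boundary element `e` of `U` is extreme and in `Wb U' v'`, so in `U'` or a
multiple of `v'`, hence of `v`; the latter is excluded since `v ∉ U` (BF1).  BF2 (3): `U ≤ U'`, and the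
dimensions agree. -/
def BxuStmt : Prop :=
  ∀ (n : ℕ) (C : Set (V n)) (Γ : Subgroup (GL (Fin n) ℝ)) (d : ℕ), Hyp C Γ d →
    ∀ (U U' : Submodule ℝ (V n)) (v v' : V n), Bx C Γ U v → Bx C Γ U' v' →
      Module.finrank ℝ U = d → Module.finrank ℝ U' = d → Wb U v = Wb U' v' →
      U' = U ∧ ∃ c : ℝ, 0 < c ∧ v' = c • v

/-- **Row BXL** (limits of boxes).

Proof.  For large `m` `f_m + v_m ∈ C`, so `f_m` is a unit of `U_m` (BF1); restrict to these `m` (shift).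
BF2 (2) with any boundary element of `U_m` (BF2 4): `f_m = τ e + e'`, BF2 (1): `x_m = ![τ e, e', v_m]`
is `IsPES` (`τ e` is `Bd`), and `BXC (1)` gives the PFJ box `(bL (U_m) (v_m), x_m, bB)`, `∑ x_m = f_m + v_m`.
BLM: subsequence, limits `L'`, `w`, `∑ w = p`, `Box C Γ L' w bB`.  `U' = L' 0`, `v' = w 2`,
`f' = w 0 + w 1`; `Bx C Γ U' v'` by BXC (2); `f' + v' = p ∈ C`, so `f'` is a unit (BF1).
`LimS` of the suprema and WBF (4): `⨆ bL = Wb`; `⨆ L' a = Wb U' v'`: `L' 1 = span (w 2)` (`one` and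
`mem`), `L' 2 = ⊥` (`bot`).  `finrank U_{φ m} = finrank U'`: from `LimS` and the following remark, or
pass to a subsequence with LSC and use the uniqueness LSF (3). -/
def BxlStmt : Prop :=
  ∀ (n : ℕ) (C : Set (V n)) (Γ : Subgroup (GL (Fin n) ℝ)), CC C Γ → MaxCard C Γ 3 →
    ∀ (U : ℕ → Submodule ℝ (V n)) (v f : ℕ → V n) (p : V n), (∀ m, Bx C Γ (U m) (v m)) →
      (∀ m, f m ∈ U m) → p ∈ C → Tendsto (fun m => f m + v m) atTop (𝓝 p) →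
      ∃ (φ : ℕ → ℕ) (U' : Submodule ℝ (V n)) (v' f' : V n), StrictMono φ ∧ Bx C Γ U' v' ∧
        Unt C U' f' ∧ f' + v' = p ∧
        Tendsto (fun m => f (φ m)) atTop (𝓝 f') ∧ Tendsto (fun m => v (φ m)) atTop (𝓝 v') ∧
        LimS (fun m => U (φ m)) U' ∧ LimS (fun m => Wb (U (φ m)) (v (φ m))) (Wb U' v') ∧
        ∀ m, Module.finrank ℝ (U (φ m)) = Module.finrank ℝ U'

/-- **Row WBL** (convergence of the subspaces of boxes).

Proof.  First half of `LimS`: `x = y + τ v` (WBF 1), `y_m ∈ U_m`, `y_m → y`, so `y_m + τ v_m → x`.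
Second half: `φ` strictly monotone, `x_m = y_m + τ_m v_{φ m} → x`, `y_m ∈ U_{φ m}`.  Let `f` be a unit of
`U`, `f_m ∈ U_m`, `f_m → f`; `f_{φ m} + v_{φ m} → f + v ∈ C`.  Absorb: `M (f + v) ∓ x ∈ C`, so for large `m`
`M (f_{φ m} + v_{φ m}) ∓ (y_m + τ_m v_{φ m}) ∈ closure C`, and `comp` gives `|τ_m| ≤ M` and
`M f_{φ m} ∓ y_m ∈ closure C`; so `y_m` is bounded (`normal`, applied to
`0 ≤ M f_{φ m} + y_m ≤ 2 M f_{φ m}`).  On a subsequence `y_m → y ∈ U` (second half of `LimS`),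
`τ_m → τ`, `x = y + τ v`. -/
def WblStmt : Prop :=
  ∀ (n : ℕ) (C : Set (V n)) (Γ : Subgroup (GL (Fin n) ℝ)), CC C Γ → MaxCard C Γ 3 →
    ∀ (U : ℕ → Submodule ℝ (V n)) (v : ℕ → V n) (U' : Submodule ℝ (V n)) (v' : V n),
      (∀ m, Bx C Γ (U m) (v m)) → Bx C Γ U' v' → LimS U U' → Tendsto v atTop (𝓝 v') →
      LimS (fun m => Wb (U m) (v m)) (Wb U' v')

/-- **Row EXB** (zoom at an edge with a large face).  `w` a top triangle (`K = 3`), `U0` the span of the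
open face of `w_0 + w_1`, `3 ≤ finrank U0`.  There are a box `(U, v)` and a linear map `T` which
restricts to an order isomorphism of `U0` onto `U`.

Proof.  `x = w_0 + w_1`, `t_m = 1/(m+1)`, `p_m = x + t_m w_2 ∈ C ∩ Hull`.  ZOM: `G_m p_{φ m} → p ∈ C`.
`![G_m w_0, G_m w_1, t G_m w_2]` is `IsPES` (ELM 1, 2) with sum `G_m p_{φ m}`; LPS: subsequence, limit
`W`, `IsPES`, `∑ W = p`.  LSC: subsequence `img g_m U0 → U`, same dimension.  For `y ∈ U0`: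
`± y ≤ M x ≤ M p_m` (FCE 4), so `G_m y` is bounded (`normal`); apply this to a basis of `U0` and take a
subsequence: `G_m y → T0 y` for all `y ∈ U0`, `T0` linear on `U0`; extend it linearly to `V`
(`LinearMap.exists_extend`): `T`.  `T y ∈ U` (second half of `LimS`).
If `y ∈ U0` and `T y ∈ closure C`: for `ε > 0` `T y + ε p ∈ C`, so for large `m`
`G_m (y + ε (x + t_m w_2)) ∈ C`, `y + ε (x + t_m w_2) ∈ C`; `m → ∞`, `ε → 0`: `y ∈ closure C`.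
Conversely `y ∈ closure C` gives `T y ∈ closure C`.  So `T y = 0` implies `y = 0` (salient); `T` is
injective on `U0`, and `finrank U = finrank U0`, so `T` maps `U0` onto `U`.
`Bx C Γ U (W 2)`: `W 0, W 1 ∈ U` (limits of `G_m w_0`, `w_0 ∈ U0`).  `comp`: `y' = T y`, `y ∈ U0`,
`T y + τ W_2 ∈ closure C`: for `ε > 0`, for large `m`: `y + ε x + (τ + ε) t_m w_2 ∈ C`.  `m → ∞`,
`ε → 0`: `y ∈ closure C`, `T y ∈ closure C`.  If `τ < 0`, take `ε = -τ/2`: some `t_m > 0` has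
`y + ε x ≥ ε t_m w_2`, and `y ≤ M x`, so `w_2 ≤ M' x` with `M' > 0`, `(1 + M') x ≥ x + w_2 ∈ C`, so
`x ∈ C`, contradicting `bd`. -/
def ExbStmt : Prop :=
  ∀ (n : ℕ) (C : Set (V n)) (Γ : Subgroup (GL (Fin n) ℝ)), CC C Γ → MaxCard C Γ 3 →
    ∀ w : Fin 3 → V n, IsPES C Γ w →
      3 ≤ Module.finrank ℝ (Submodule.span ℝ (Face C (w 0 + w 1))) →
      ∃ (U : Submodule ℝ (V n)) (v : V n) (T : (V n) →ₗ[ℝ] (V n)), Bx C Γ U v ∧
        Module.finrank ℝ U = Module.finrank ℝ (Submodule.span ℝ (Face C (w 0 + w 1))) ∧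
        (∀ y ∈ Submodule.span ℝ (Face C (w 0 + w 1)), T y ∈ U ∧
          (T y ∈ closure C ↔ y ∈ closure C) ∧ (T y = 0 → y = 0)) ∧
        ∀ z ∈ U, ∃ y ∈ Submodule.span ℝ (Face C (w 0 + w 1)), T y = z

/-- **Row HSQ** (horosphere sequences).

Proof.  BF2 (4): `e` `Bd`, not a multiple of `a`; `z` `Bd`, not in `span {a, e}`.
`f_m = (m+1) a + e` is a unit (BF1 strict, UNF).  BF2 (2) (boundary element `z`):
`f_m = τ_m z + e_m`, `e_m` `Bd`, `τ_m > 0`.  `e_m` is not a multiple of `a` (else `e ∈ span {a, z}`, so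
`z ∈ span {a, e}` since `e` is not a multiple of `a`), so `ψ (e_m) > 0` (BF3 3).
`ψ (e_m) ≤ ψ (f_m) = ψ e` (`ψ (τ_m z) ≥ 0`).  `‖e_m‖ → ∞`: `e_m / (m+1)` and `τ_m z / (m+1)` are in
`closure C` with sum `a + e/(m+1) → a`; if `‖e_m‖` does not tend to `∞`, there is a subsequence along which
it is bounded, `e_m / (m+1) → 0`, so `τ_m z/(m+1) → a`; `span z` is closed, so `a` is a multiple of
`z`, contradiction (`z ∉ span {a, e}`, `a ≠ 0`).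
`c_m = (ψ e_m)⁻¹ e_m`; `‖c_m‖ ≥ ‖e_m‖ / ψ e`. -/
def HsqStmt : Prop :=
  ∀ (n : ℕ) (C : Set (V n)) (Γ : Subgroup (GL (Fin n) ℝ)), CC C Γ → MaxCard C Γ 3 →
    ∀ (U : Submodule ℝ (V n)) (v a : V n) (ψ : (V n) →ₗ[ℝ] ℝ), Bx C Γ U v → Bd C U a →
      Sup C U a ψ → ∃ c : ℕ → V n, (∀ m, Bd C U (c m)) ∧ (∀ m, ψ (c m) = 1) ∧
        Tendsto (fun m => ‖c m‖) atTop atTop

/-- **Row TRF** (what is small at the start stays small).

Proof.  Let `q0 ∈ C`.  There is `b > 0` with `b ‖y‖ q0 ∓ y ∈ closure C` for all `y` (absorb for the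
basis vectors, or: `C` is open at `q0`).  So `∓ y ≤ b ‖y‖ q0 ≤ b ‖y‖ P_m`, and
`0 ≤ G_m (b ‖y‖ P_m + y) ≤ 2 b ‖y‖ G_m P_m`; `normal` and the boundedness of `G_m P_m` give
`‖G_m y‖ ≤ B ‖y‖`.  The second claim follows from the first. -/
def TrfStmt : Prop :=
  ∀ (n : ℕ) (C : Set (V n)) (Γ : Subgroup (GL (Fin n) ℝ)), CC C Γ →
    ∀ (q0 p : V n) (P : ℕ → V n) (g : ℕ → GL (Fin n) ℝ) (s : ℕ → ℝ), q0 ∈ C →
      (∀ m, P m - q0 ∈ closure C) → (∀ m, g m ∈ Γ) → (∀ m, 0 < s m) →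
      Tendsto (fun m => s m • act (g m) (P m)) atTop (𝓝 p) →
      (∃ B : ℝ, 0 < B ∧ ∀ (m : ℕ) (y : V n), ‖s m • act (g m) y‖ ≤ B * ‖y‖) ∧
      (∀ (y : ℕ → V n) (y0 : V n), Tendsto y atTop (𝓝 y0) →
        Tendsto (fun m => s m • act (g m) (y m - y0)) atTop (𝓝 0))

/-- **Row ZNE** (zoom where the second box is near but not very near; compare PFJ ZSS).

Proof.  `p_m = f_m + τ_m v ∈ C` (BF1), in `Hull`: `f_m ∈ LamC`, `v ∈ LamC` (BF1, `HulFacts`).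
`q_m ∈ Wb (U_m) (v_m)` with `p_m ≤ q_m ≤ 4 p_m`, `q_m ∈ C`, `q_m = h_m + ρ_m v_m`, `h_m ∈ U_m` (WBF 1), and
by BF1 `h_m` is a unit and `ρ_m > 0`.  ZOM: `G_m p_{φ m} → p ∈ C`; `G_m q_{φ m}` is bounded (`normal`),
subsequence `→ Q ≥ p`, `Q ∈ C`.  `(img g_m U, G_m (τ v))`, `(img g_m U_{φ m}, G_m (ρ v_{φ m}))` are boxes
(BF2 5, 6), `G_m f ∈ img g_m U`, `G_m h ∈ img g_m U_{φ m}`.  BXL twice (one after the other, restrict the
first limits to the further subsequence, LSF 1).  Dimensions: WBF (5), BXL.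
If `Wb U1 v1 = Wb U2 v2`, then `p = f1 + v1 ∈ Wb U2 v2`; NSF (5) with
`LimS (Wb (img g_m U_{φ m}) (G_m ρ v_{φ m})) (Wb U2 v2)` gives `NearS 2` of these subspaces at
`G_m p_{φ m}` for large `m`; WBF (2), (3): the subspace is `img g_m (Wb (U_{φ m}) (v_{φ m}))`, and NSF (1)
gives `NearS 2` at `p_{φ m}`, contradiction. -/
def ZneStmt : Prop :=
  ∀ (n : ℕ) (C : Set (V n)) (Γ : Subgroup (GL (Fin n) ℝ)) (d : ℕ), Hyp C Γ d →
    ∀ (U : Submodule ℝ (V n)) (v : V n) (Um : ℕ → Submodule ℝ (V n)) (vm f : ℕ → V n)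
      (τ : ℕ → ℝ), Bx C Γ U v → Module.finrank ℝ U = d → (∀ m, Bx C Γ (Um m) (vm m)) →
      (∀ m, Module.finrank ℝ (Um m) = d) → (∀ m, Unt C U (f m)) → (∀ m, 0 < τ m) →
      (∀ m, NearS C 4 (Wb (Um m) (vm m)) (f m + τ m • v)) →
      (∀ m, ¬ NearS C 2 (Wb (Um m) (vm m)) (f m + τ m • v)) →
      ∃ (φ : ℕ → ℕ) (g : ℕ → GL (Fin n) ℝ) (s ρ : ℕ → ℝ) (U1 U2 : Submodule ℝ (V n))
        (f1 v1 v2 : V n), StrictMono φ ∧ (∀ m, g m ∈ Γ) ∧ (∀ m, 0 < s m) ∧ (∀ m, 0 < ρ m) ∧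
        Bx C Γ U1 v1 ∧ Module.finrank ℝ U1 = d ∧ Bx C Γ U2 v2 ∧ Module.finrank ℝ U2 = d ∧
        Unt C U1 f1 ∧
        Tendsto (fun m => s m • act (g m) (f (φ m))) atTop (𝓝 f1) ∧
        Tendsto (fun m => s m • act (g m) (τ (φ m) • v)) atTop (𝓝 v1) ∧
        Tendsto (fun m => s m • act (g m) (ρ m • vm (φ m))) atTop (𝓝 v2) ∧
        LimS (fun m => img (g m) U) U1 ∧ LimS (fun m => img (g m) (Um (φ m))) U2 ∧
        Wb U1 v1 ≠ Wb U2 v2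

/-- the outcome of a first failure along the path
`f + 2^j c + (1 + 2^j ε) v`, `j = 0, 1, 2, ...` in the box `(U, v)`, for boxes `(Um m, vm m)` tending
to `(U, v)`.  `k m` is the first `j` for which the box number `φ m` is not near. -/
def Fail {n : ℕ} (C : Set (V n)) (Γ : Subgroup (GL (Fin n) ℝ)) (d : ℕ) (U : Submodule ℝ (V n))
    (v : V n) (Um : ℕ → Submodule ℝ (V n)) (vm : ℕ → V n) (f c : V n) (ε : ℝ) : Prop :=
  ∃ (φ k : ℕ → ℕ) (g : ℕ → GL (Fin n) ℝ) (s ρ : ℕ → ℝ) (U1 U2 : Submodule ℝ (V n))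
    (f1 v1 v2 : V n), StrictMono φ ∧ Tendsto k atTop atTop ∧ (∀ m, g m ∈ Γ) ∧ (∀ m, 0 < s m) ∧
    (∀ m, 0 < ρ m) ∧
    Bx C Γ U1 v1 ∧ Module.finrank ℝ U1 = d ∧ Bx C Γ U2 v2 ∧ Module.finrank ℝ U2 = d ∧
    Unt C U1 f1 ∧
    Tendsto (fun m => s m • act (g m) (f + (2 : ℝ) ^ (k m) • c)) atTop (𝓝 f1) ∧
    Tendsto (fun m => s m • act (g m) ((1 + (2 : ℝ) ^ (k m) * ε) • v)) atTop (𝓝 v1) ∧
    Tendsto (fun m => s m • act (g m) (ρ m • vm (φ m))) atTop (𝓝 v2) ∧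
    LimS (fun m => img (g m) U) U1 ∧ LimS (fun m => img (g m) (Um (φ m))) U2 ∧
    Wb U1 v1 ≠ Wb U2 v2 ∧
    (∃ B : ℝ, 0 < B ∧ ∀ (m : ℕ) (y : V n), ‖s m • act (g m) y‖ ≤ B * ‖y‖) ∧
    (∀ (y : ℕ → V n) (y0 : V n), Tendsto y atTop (𝓝 y0) →
      Tendsto (fun m => s m • act (g m) (y m - y0)) atTop (𝓝 0))

/-- **Row FFP** (first failure).

Proof.  `P_j = f + 2^j c + (1 + 2^j ε) v ∈ C` (BF1: `f + 2^j c ≥ f + c` is a unit by UNF 2),
`P_j ≤ P_{j+1} ≤ 2 P_j` (`2 P_j - P_{j+1} = f + v`).  WBL: `Wb (Um m) (vm m) → Wb U v`.  For every fixed `j`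
NSF (5) (constant point `P_j ∈ Wb U v`) gives `NearS 2 (Wb (Um m) (vm m)) (P_j)` for all large `m`.
Suppose the first alternative fails.  Then for infinitely many `m` there is `j` with
`¬ NearS 2 (Wb (Um m) (vm m)) (P_j)`; let `φ0` enumerate such `m` (strictly increasing) and let `k0 i` be
the least such `j` for `m = φ0 i` (`Nat.find`).  For every `J` the previous remark for `j ≤ J` shows
`k0 i > J` for large `i`: `k0 → ∞`; drop the finitely many `i` with `k0 i = 0`.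
`NearS 2` at `k0 i - 1`, so NSF (2) gives `NearS 4` at `P_{k0 i}`.  ZNE with the boxes
`(Um (φ0 i), vm (φ0 i))`, `f_i = f + 2^{k0 i} c`, `τ_i = 1 + 2^{k0 i} ε`.  The last two items: TRF with
`q0 = P_0 = f + c + (1 + ε) v ∈ C` and `P_j - P_0 ∈ closure C`, `G_m P_{k m} → f1 + v1`. -/
def FfpStmt : Prop :=
  ∀ (n : ℕ) (C : Set (V n)) (Γ : Subgroup (GL (Fin n) ℝ)) (d : ℕ), Hyp C Γ d →
    ∀ (U : Submodule ℝ (V n)) (v : V n) (Um : ℕ → Submodule ℝ (V n)) (vm : ℕ → V n),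
      Bx C Γ U v → Module.finrank ℝ U = d → (∀ m, Bx C Γ (Um m) (vm m)) →
      (∀ m, Module.finrank ℝ (Um m) = d) → LimS Um U → Tendsto vm atTop (𝓝 v) →
      ∀ (f c : V n) (ε : ℝ), f ∈ U → f ∈ closure C → c ∈ U → c ∈ closure C →
      Unt C U (f + c) → 0 ≤ ε →
      (∀ᶠ m in atTop, ∀ j : ℕ, NearS C 2 (Wb (Um m) (vm m))
        (f + (2 : ℝ) ^ j • c + (1 + (2 : ℝ) ^ j * ε) • v)) ∨
      Fail C Γ d U v Um vm f c ε

/-- **Row DIR** (always near: the direction is in the subspace).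

Proof.  `q_j ∈ W`, `x + 2^j r ≤ q_j ≤ 2 (x + 2^j r)`; `2^{-j} q_j` is bounded (`normal`: it is
`≤ 2 (2^{-j} x + r)`), in `closure C`; subsequence `→ q ∈ W` (closed), `r ≤ q ≤ 2 r`.  `Ext`: `q = c r`;
`c ≠ 0` (otherwise `-r ∈ closure C`, `r = 0`), so `r = c⁻¹ q ∈ W`. -/
def DirStmt : Prop :=
  ∀ (n : ℕ) (C : Set (V n)), PCone C → ∀ (W : Submodule ℝ (V n)) (x r : V n), x ∈ closure C →
    r ∈ closure C → r ≠ 0 → Ext C r → (∀ j : ℕ, NearS C 2 W (x + (2 : ℝ) ^ j • r)) → r ∈ W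

end Pool.Agent.PCO
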