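import Pool.Agent.PCO.StmtsA

/-!
# PCO squad (MP_e54c4c_gt): SECTION B, projections, boundary zooms, two boxes with the same `U`

Main rows for the sections E and P: `PrjStmt`, `PrfStmt`, `CpfStmt`, `ClmStmt`, `PrcStmt`, `HorStmt`,
`NoiStmt`.  The landed rows of the squads PFS, PFB, PFJ may be cited (see the header of `StmtsA`).
Hypotheses of the form `XStmt` in the column uses are rows of the PCO squad (`StmtsA`, `StmtsB`).
`G_m = s_m act g_m`.  `Sml C v u`: for every `x ∈ C` and `τ > 0` there is `κ > 0` with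
`∓ u ≤ κ v + τ x`.
-/

set_option autoImplicit false

open Matrix Filter Topology

namespace Pool.Agent.PCO

open Pool.Agent.PFS Pool.Agent.PFJ

/-! ## A. Limits of linear maps, small vectors -/

/-- **Row LMT** (limits of bounded sequences of linear maps).

Proof.  (1) For every basis vector `e_i = Pi.single i 1` the sequence `A m e_i` is bounded; on a
subsequence all of them converge (`tendsto_subseq_of_bounded` for `m ↦ (i ↦ A m e_i)` in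
`Fin n → V n`).  `T` = the linear map with these values on the basis (`(Pi.basisFun ℝ (Fin n)).constr`
or `∑ y_i • t_i`).  `A (φ m) y0 = ∑ (y0)_i A (φ m) e_i → T y0` and
`‖A (φ m) (y m - y0)‖ ≤ B ‖y m - y0‖ → 0`.
(2) (1) for `A m = s m • Matrix.mulVecLin (g m)`.  If moreover `C` is invariant: `T` maps
`closure C` into `closure C`, being a pointwise limit of maps with this property
(`CC.sact_cl_iff`, closed). -/
def LmtStmt : Prop :=
  ∀ n : ℕ,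
    (∀ (A : ℕ → (V n →ₗ[ℝ] V n)) (B : ℝ), (∀ m y, ‖A m y‖ ≤ B * ‖y‖) →
      ∃ (φ : ℕ → ℕ) (T : V n →ₗ[ℝ] V n), StrictMono φ ∧
        ∀ (y : ℕ → V n) (y0 : V n), Tendsto y atTop (𝓝 y0) →
          Tendsto (fun m => A (φ m) (y m)) atTop (𝓝 (T y0))) ∧
    (∀ (C : Set (V n)) (Γ : Subgroup (GL (Fin n) ℝ)), CC C Γ →
      ∀ (g : ℕ → GL (Fin n) ℝ) (s : ℕ → ℝ) (B : ℝ), (∀ m, g m ∈ Γ) → (∀ m, 0 < s m) →
      (∀ m y, ‖s m • act (g m) y‖ ≤ B * ‖y‖) →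
      ∃ (φ : ℕ → ℕ) (T : V n →ₗ[ℝ] V n), StrictMono φ ∧ (∀ x ∈ closure C, T x ∈ closure C) ∧
        ∀ (y : ℕ → V n) (y0 : V n), Tendsto y atTop (𝓝 y0) →
          Tendsto (fun m => s (φ m) • act (g (φ m)) (y m)) atTop (𝓝 (T y0)))

/-- **Row SMF** (facts on small vectors).  `v ∈ closure C`.

Proof.  (1) Let `x ∈ C`, `τ > 0`; absorb: `M x - x0 ∈ C`, `M > 0`; apply the hypothesis with `τ/M` and
add `(τ/M) (M x - x0)`.  (2) `∓ (α u + β u') ≤ (|α| κ + |β| κ' + 1) v + (|α| + |β|) τ' x` with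
`τ' = τ / (|α| + |β| + 1)`.  (3) `|ψ u| ≤ τ ψ x` for a fixed `x ∈ C` and all `τ > 0`.
(4) Use (1) with `x0 ∈ C` arbitrary: `T z ≤ M x0` for a fixed `z ∈ C` (absorb); hypothesis for `z` and
`τ/M`, apply `T`.  (5) `κ = 1`.  (6) `± T u ≤ τ T x` for a fixed `x ∈ C` and all `τ > 0`; `τ → 0`
(closed): `T u` and `- T u` are in `closure C`, salient. -/
def SmfStmt : Prop :=
  ∀ (n : ℕ) (C : Set (V n)), PCone C → ∀ v ∈ closure C,
    (∀ x0 ∈ C, ∀ u : V n, (∀ τ : ℝ, 0 < τ → ∃ κ : ℝ, 0 < κ ∧ κ • v + τ • x0 - u ∈ closure C ∧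
      κ • v + τ • x0 + u ∈ closure C) → Sml C v u) ∧
    (∀ (α β : ℝ) (u u' : V n), Sml C v u → Sml C v u' → Sml C v (α • u + β • u')) ∧
    (∀ (ψ : V n →ₗ[ℝ] ℝ), (∀ x ∈ closure C, 0 ≤ ψ x) → ψ v = 0 → ∀ u, Sml C v u → ψ u = 0) ∧
    (∀ (T : V n →ₗ[ℝ] V n), (∀ x ∈ closure C, T x ∈ closure C) → ∀ u, Sml C v u →
      Sml C (T v) (T u)) ∧
    Sml C v v ∧
    (∀ (T : V n →ₗ[ℝ] V n), (∀ x ∈ closure C, T x ∈ closure C) → T v = 0 → ∀ u, Sml C v u →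
      T u = 0)

/-! ## B. The projection of a box -/

/-- **Row PRJ** (the monotone projection).

Proof.  Triangle `(e, e', v)`, `f0 = e + e'`, `p_m = f0 + 2^m v ∈ C ∩ Hull`.  ZOM: `G_m p_{φ m} → p`.
BXL for the boxes `(img g_m U, G_m (2^{φ m} v))` (BF2 5, 6), `f_m = G_m f0`: subsequence, limit box
`(U', v')`, `G_m f0 → f'` a unit of `U'`, `G_m (2^{φ m} v) → v'`, `img g_m U → U'`, `finrank U' = d`.
TRF (`q0 = p_0`, `P_m = p_{φ m}`) and LMT (2): subsequence, `G_m y → T y` for all `y`, `T` linear and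
positive.  `T v = lim 2^{-φ m} G_m (2^{φ m} v) = 0`.  `T f0 = f'`.
(a) `y ∈ U`, `T y ∈ closure C` imply `y ∈ closure C`: for `ε > 0`, `T y + ε p ∈ C`, so for large `m`
`y + ε p_{φ m} ∈ C`, and `Bx.comp`: `y + ε f0 ∈ closure C`; `ε → 0`.  So `T` is injective on `U`
(salient).  `T U ≤ U'` (second half of `LimS`), so `T U = U'` (dimensions).
(b) `T x ∈ U'` for all `x`: it is enough for `x ∈ closure C` (`V` is spanned by `C`, open); absorb: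
`M (f0 + v) - x ∈ C`, so `T x ≤ M T (f0 + v) = M f'`, `T x ∈ closure C`: BXM (1) for `(U', v')`.
Define `p x` = the unique `u ∈ U` with `T u = T x` (linear; for instance `(T|U)⁻¹ ∘ T` with
`LinearEquiv.ofBijective`).  `mem`, `idU` clear; `pos`: (a).
`ker`: `p x = 0` iff `T x = 0`.  If `T x = 0`: let `x0 = f0 + v ∈ C`, `τ > 0`; `τ p ∈ C`, so for large `m`
`τ p_{φ m} ∓ x ∈ C`; `τ (f0 + 2^m v) ≤ τ x0 + τ 2^m v`: SMF (1).  If `Sml C v x`: SMF (6). -/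
def PrjStmt : Prop :=
  ∀ (n : ℕ) (C : Set (V n)) (Γ : Subgroup (GL (Fin n) ℝ)) (d : ℕ), Hyp C Γ d →
    ∀ (U : Submodule ℝ (V n)) (v : V n), Bx C Γ U v → Module.finrank ℝ U = d →
      ∃ p : V n →ₗ[ℝ] V n, Prj C U v p

/-- **Row PRF** (facts on the projection).

Proof.  (1) `Prj.ker` and SMF (5).  (2) `p (p x) = p x` (`idU`, `mem`); `Prj.ker`.
(3) `p x ∈ closure C ∩ U`; for `z ∈ U` absorb gives `M x - z ∈ C`, apply `p`: `M p x - z ∈ closure C`.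
(4) The range of `p` is `U`, so `finrank (ker p) = n - d = 2` (`LinearMap.finrank_range_add_finrank_ker`,
`Hyp.codim`), `l, z` independent in `ker p`, so they span it; `x - p x ∈ ker p`.
(5) `p q ∈ closure C`, `p q ≤ M p (a + v) = M a`; BF1 (last item).
(6) `P` kills small vectors (SMF 6), so `P x = P (p x) + P (x - p x) = p x`.
(7) `p' x = act g (p (act g⁻¹ x))`; `mem`: `mem_img`; `idU`; `pos`: `CC.act_cl`; `ker`: `Sml` is invariant: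
`Sml C v u ↔ Sml C (s • act g v) (act g u)` (apply `act g` to the inequalities, `act g` maps `C` onto
`C`, replace `κ` by `κ/s`).
(8) `x - p x` is small relative to `v` (2), so `T (x - p x)` is small relative to `T v` (SMF 4), so
`p' (T x) = p' (T (p x)) = T (p x)` (`Prj.ker`, `idU`). -/
def PrfStmt : Prop :=
  ∀ (n : ℕ) (C : Set (V n)) (Γ : Subgroup (GL (Fin n) ℝ)) (d : ℕ), Hyp C Γ d →
    ∀ (U : Submodule ℝ (V n)) (v : V n), Bx C Γ U v → Module.finrank ℝ U = d →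
    ∀ p : V n →ₗ[ℝ] V n, Prj C U v p →
      p v = 0 ∧
      (∀ x, p (x - p x) = 0 ∧ Sml C v (x - p x)) ∧
      (∀ x ∈ C, Unt C U (p x)) ∧
      (∀ l z, p l = 0 → p z = 0 → Ind2 l z → ∀ x, ∃ s t : ℝ, x = p x + s • l + t • z) ∧
      (∀ a, Bd C U a → ∀ q ∈ closure C, ∀ M : ℝ, M • (a + v) - q ∈ closure C →
        ∃ κ : ℝ, 0 ≤ κ ∧ p q = κ • a) ∧
      (∀ P : V n →ₗ[ℝ] V n, (∀ x ∈ closure C, P x ∈ closure C) → (∀ y ∈ U, P y = y) → P v = 0 →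
        P = p) ∧
      (∀ g ∈ Γ, ∀ s : ℝ, 0 < s → ∃ p' : V n →ₗ[ℝ] V n, Prj C (img g U) (s • act g v) p' ∧
        ∀ x, p' (act g x) = act g (p x)) ∧
      (∀ (T : V n →ₗ[ℝ] V n) (U' : Submodule ℝ (V n)) (p' : V n →ₗ[ℝ] V n),
        (∀ x ∈ closure C, T x ∈ closure C) → (∀ y ∈ U, T y ∈ U') → Prj C U' (T v) p' →
        ∀ x, p' (T x) = T (p x))

/-- **Row PRC** (continuity of the projection).

Proof.  Let `f` be a unit of `U`, `f_m ∈ U_m`, `f_m → f` (`LimS`), `y_m = f_m + v_m → f + v ∈ C`.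
Bound: there is `b > 0` with `b ‖y‖ (f + v) ∓ y ∈ C ∪ {0}` for all `y` (absorb for basis vectors) and
for large `m` `f + v ≤ 2 y_m` (squeeze); so `∓ y ≤ 2 b ‖y‖ y_m`, apply `p_m` (`pos`, `p_m v_m = 0` by
PRF 1): `∓ p_m y ≤ 2 b ‖y‖ f_m`, hence (`normal`, `0 ≤ 2b‖y‖ f_m + p_m y ≤ 4b‖y‖ f_m`) `‖p_m y‖ ≤ B ‖y‖`
for all large `m`.
Suppose `p_m x_m` does not tend to `p x`: on a subsequence the distance is `≥ δ`.  LMT (1): a further
subsequence and `P` with `p_m y_m → P y` whenever `y_m → y`.  `P` is positive (limit of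
`p_m y ∈ closure C`); `P v = lim p_m v_m = 0`; for `y ∈ U` choose `y_m ∈ U_m`, `y_m → y`: `P y = lim y_m = y`.
PRF (6): `P = p`.  So `p_m x_m → p x` along the subsequence, contradiction. -/
def PrcStmt : Prop :=
  ∀ (n : ℕ) (C : Set (V n)) (Γ : Subgroup (GL (Fin n) ℝ)) (d : ℕ), Hyp C Γ d →
    ∀ (Um : ℕ → Submodule ℝ (V n)) (vm : ℕ → V n) (U : Submodule ℝ (V n)) (v : V n)
      (pm : ℕ → (V n →ₗ[ℝ] V n)) (p : V n →ₗ[ℝ] V n) (xm : ℕ → V n) (x : V n),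
      (∀ m, Bx C Γ (Um m) (vm m)) → (∀ m, Module.finrank ℝ (Um m) = d) → Bx C Γ U v →
      Module.finrank ℝ U = d → LimS Um U → Tendsto vm atTop (𝓝 v) →
      (∀ m, Prj C (Um m) (vm m) (pm m)) → Prj C U v p → Tendsto xm atTop (𝓝 x) →
      Tendsto (fun m => pm m (xm m)) atTop (𝓝 (p x))

/-! ## C. The zoom at a boundary ray -/

/-- **Row TZA** (the zoom at a boundary ray `a` of `U`, for two boxes with the same `U`; `w = v` is
allowed).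

Proof.  `IsPES ![a, c, v]` (BF2 1).  `p_m = 2^m a + c + v ∈ C ∩ Hull`.  ZOM: `G_m p_{φ m} → p ∈ C`.  BXL
for `(img g_m U, G_m v)`, `f_m = G_m (2^{φ m} a + c)`: subsequence, limit box `(U', v')`, `f_m → f'` a unit
of `U'`, `G_m v → v'`, `img g_m U → U'`, `finrank U' = d`.  TRF (`q0 = p_0`) and LMT (2): subsequence,
`G_m y → T y`, `T` positive; `T v = v'`.
Second box: `a + c + w ∈ C` (BF1: `a + c` is a unit by strictness), absorb: `v ≤ M (a + c + w)`, `M ≥ 1`,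
so `p_m ≤ (1 + M) (2^m a + c + w)` and `p ≤ (1 + M) (f' + T w)`, so `f' + T w ∈ C`; BXL for
`(img g_m U, G_m w)`, `f_m`: the limit box is `(U', T w)` (LSF 3).
`T a = 0`: `2^{φ m} G_m a ≤ G_m p_{φ m}` is bounded (`normal`).  `T c ∈ U' ∩ closure C`, and
`G_m (2^{φ m} a) = f_m - G_m c → a' := f' - T c ∈ closure C`.
`T c ≠ 0`: otherwise `a' = f'`, `a' + v' ∈ C` (BF1), so `2^{φ m} a + v ∈ C` for large `m`, contradicting BF1
(`a` is not a unit, UNF 1).  `T c` is not a unit: otherwise `T c + v' ∈ C`, `c + v ∈ C`.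
`T x = 0`: `Sml C a x` by SMF (1) with `x0 = a + c + v`: `τ p ∈ C`, so for large `m` `τ p_{φ m} ∓ x ∈ C`, and
`τ p_{φ m} ≤ τ 2^{φ m} a + τ x0`.
`u ∈ U ∩ closure C`: suppose `Ind2 (T u) (T c)`.  Then `T (u + c)` is a unit of `U'` (BF1),
`T (u + c) + v' ∈ C`, absorb: `M (T (u + c) + v') - a' ∈ C`, so for large `m`
`M (u + c + v) - 2^{φ m} a ∈ C`; divide by `2^{φ m}`, `m → ∞`: `-a ∈ closure C`, `a = 0`, contradiction.
As `T c ≠ 0`, `T u` is a multiple of `T c`.  General `u ∈ U`: with a unit `f` and `M f - u ∈ closure C`,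
`u = M f - (M f - u)`.
`q`: `T q ≤ M T (a + v) = M v'`, `Ext v'` (BXM 5). -/
def TzaStmt : Prop :=
  ∀ (n : ℕ) (C : Set (V n)) (Γ : Subgroup (GL (Fin n) ℝ)) (d : ℕ), Hyp C Γ d →
    ∀ (U : Submodule ℝ (V n)) (v w a c : V n), Bx C Γ U v → Bx C Γ U w →
      Module.finrank ℝ U = d → Bd C U a → Bd C U c → Ind2 a c →
      ∃ (T : V n →ₗ[ℝ] V n) (U' : Submodule ℝ (V n)), Bx C Γ U' (T v) ∧ Bx C Γ U' (T w) ∧
        Module.finrank ℝ U' = d ∧ Bd C U' (T c) ∧ T a = 0 ∧ (∀ x ∈ closure C, T x ∈ closure C) ∧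
        (∀ x, T x = 0 → Sml C a x) ∧ (∀ u ∈ U, ∃ t : ℝ, T u = t • T c) ∧
        (∀ q ∈ closure C, ∀ M : ℝ, M • (a + v) - q ∈ closure C → ∃ t : ℝ, T q = t • T v)

/-- **Row CPF** (smoothness of the cone of `U` and of the face of `a + v` at `a`).

Proof.  Choose `c` `Bd`, not a multiple of `a` (BF2 4), so `Ind2 a c`; TZA with `w = v`: `T`.
(1) `T x = s T c`, `T y = t T c`; `T (x - s c) = 0`, so `x - s c` is small relative to `a` and
`ψ x = s ψ c`, `φ x = s φ c` (SMF 3), and the same for `y` with `t`.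
(2) `T q = s T v`, `T q' = t T v`: the same with `v` in the place of `c`.
(3) `T u = t T c`, `u - t c ∈ U` is small relative to `a`.  Let `f` be a unit of `U`, `x0 = f + v ∈ C`
(BF1): `κ a + τ (f + v) ∓ (u - t c) ∈ closure C`, `comp`: `κ a + τ f ∓ (u - t c) ∈ closure C`, so
`|ψ (u - t c)| ≤ τ ψ f` for all `τ > 0`, hence `0 = ψ u = t ψ c`, and `ψ c > 0` (BF3 4), so `t = 0`,
`T u = 0`, `Sml C a u`. -/
def CpfStmt : Prop :=
  ∀ (n : ℕ) (C : Set (V n)) (Γ : Subgroup (GL (Fin n) ℝ)) (d : ℕ), Hyp C Γ d →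
    ∀ (U : Submodule ℝ (V n)) (v a : V n), Bx C Γ U v → Module.finrank ℝ U = d → Bd C U a →
      (∀ ψ φ : V n →ₗ[ℝ] ℝ, (∀ x ∈ closure C, 0 ≤ ψ x) → (∀ x ∈ closure C, 0 ≤ φ x) →
        ψ a = 0 → φ a = 0 → ∀ x ∈ U, ∀ y ∈ U, ψ x * φ y = ψ y * φ x) ∧
      (∀ ψ φ : V n →ₗ[ℝ] ℝ, (∀ x ∈ closure C, 0 ≤ ψ x) → (∀ x ∈ closure C, 0 ≤ φ x) →
        ψ a = 0 → φ a = 0 → ∀ q ∈ closure C, ∀ q' ∈ closure C, ∀ M M' : ℝ,
        M • (a + v) - q ∈ closure C → M' • (a + v) - q' ∈ closure C → ψ q * φ q' = ψ q' * φ q) ∧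
      (∀ ψ : V n →ₗ[ℝ] ℝ, Sup C U a ψ → ∀ u ∈ U, ψ u = 0 → Sml C a u)

/-- **Row CLM** (two boxes with the same apex, a common boundary ray `a` and a large face of `a + v`
have the same `U`).

Proof.  `y ∈ Face C (a + v)`: `y ∈ closure C`, `M (a + v) - y ∈ closure C` for some `M` (`M = ε⁻¹`).  PRJ:
`p` for `(U, v)`; PRF (5): `p y = κ a`.  `z = y - κ a`, `p z = 0` (`p a = a`), `p v = 0`.  `Ind2 v z`: if
`α v + β z = 0` with `β ≠ 0` then `y = κ a - (α/β) v`, excluded; `β = 0` gives `α = 0` (`v ≠ 0`).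
PRF (4): every `x` is `f + s v + t y` with `f ∈ U` (`f = p x - t κ a`).
`ν`, `ν'`: `Nu` functionals of `(U, v)`, `(U', v)` (BF3 2); both vanish at `a`.  CPF (2) with `q = v`
(`(a + v) - v = a`), `q' = y`: `ν' y = ν y`.
`β`: FUN for the triangle `![a, c, v]` (BF2 1; `c` as in BF2 4), `l = 1`: `β > 0` on `C`, `≥ 0` on
`closure C`, `β a = β v = 0`; `0 ≤ β y ≤ M β (a + v) = 0`.
Let `x ∈ U' ∩ closure C`, `x = f + s v + t y`, `f ∈ U`.  `β f = β x ≥ 0`.  Let `f0` be a unit of `U`;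
`β f0 = β (f0 + v) > 0` (BF1).  CPF (1) for `β, ν'`: `β f0 * ν' f = β f * ν' f0 ≥ 0`, so `ν' f ≥ 0`.
`0 = ν' x = ν' f + s + t ν y` and `ν x = 0 + s + t ν y = - ν' f ≤ 0`; `ν x ≥ 0`, so `ν x = 0`.
So `ν (f0 + x) = 0`, `f0 + x ∉ C` (BF3 3), and if `x ≠ 0` then `x ∈ LamC` (BF1 for `U'`), so `x ∈ U`
by BXM (6).  So all boundary elements of `U'` are in `U`, `U' ≤ U` (BF2 3), equal by dimension. -/
def ClmStmt : Prop :=
  ∀ (n : ℕ) (C : Set (V n)) (Γ : Subgroup (GL (Fin n) ℝ)) (d : ℕ), Hyp C Γ d →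
    ∀ (U U' : Submodule ℝ (V n)) (v a : V n), Bx C Γ U v → Bx C Γ U' v →
      Module.finrank ℝ U = d → Module.finrank ℝ U' = d → Bd C U a → Bd C U' a →
      (∃ y ∈ Face C (a + v), ∀ s t : ℝ, y ≠ s • a + t • v) → U' = U

/-- **Row HOR** (the horosphere lemma; discreteness of `Γ`).

Proof.  `Ind2 a (c m)` (`ψ a = 0`, `ψ (c m) = 1`, both nonzero), so `a + c m` is a unit (BF1) and
`y_m = a + c m + v ∈ C ∩ Hull`.  `h_m = (g 0)⁻¹ g_m ∈ Γ`; `act (g m) a = κ_m act (g 0) a` gives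
`act h_m a = κ_m a`, `κ_m > 0` (both sides in `closure C`, nonzero, salient).  `A_m = s_m act h_m`,
`A_m y_m → p' = act (g 0)⁻¹ p ∈ C`, `A_m a = σ_m a`, `σ_m = s_m κ_m > 0`.
(i) `σ_m a ≤ A_m y_m`, bounded: `σ_m ≤ R` (`normal`).  (ii) there is `r > 0` with `σ_m ≥ r` for all `m`:
otherwise `σ_m → 0` on a subsequence, `A_m (c m + v) = A_m y_m - σ_m a → p' ∈ C`, so `c m + v ∈ C` for some
`m`, contradicting BF1 (`c m` is not a unit).
(iii) there are `M₁ ≥ 1`, `m₀` with `A_m y_m ≤ M₁ y_0`, `y_0 ≤ M₁ A_m y_m` for `m ≥ m₀` (absorb, openness;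
or CMC).  For real `x ≥ 0` put `Y_m(x) = y_m + x a ∈ C ∩ Hull`; `A_m Y_m(x) = A_m y_m + x σ_m a`, so with
`M₂ = max M₁ R`, `M₃ = max M₁ r⁻¹`: `A_m Y_m(x) ≤ M₂ Y_0(x)`, `Y_0(x) ≤ M₃ A_m Y_m(x)`.  So
`Cmp C (M₂ M₃) (act h_m (Y_m(x))) (Y_0(x))`.
(iv) `c m - c 0 ∈ U`, `ψ (c m - c 0) = 0`, so it is small relative to `a` (CPF 3): with `y_0`, `τ = 1/2` there
is `k_m > 0` with `k_m a + (1/2) y_0 ∓ (c m - c 0) ∈ closure C`.  For `x ≥ 2 k_m`:
`(1/2) Y_0(x) ≤ Y_m(x) ≤ (3/2) Y_0(x)`, so `Cmp C 3 (Y_m(x)) (Y_0(x))`, and by CMF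
`Cmp C M₄ (act h_m (Y_0(x))) (Y_0(x))`, `M₄` independent of `m ≥ m₀` and `x ≥ 2 k_m`.
(v) COV with `o = y_0`: `M₀`; for every `x` there is `k ∈ Γ` with `Cmp C M₀ (Y_0(x)) (act k o)`.  CMF:
`Cmp C (M₀ M₄ M₀) (act (k⁻¹ h_m k) o) o`.  PRP: the set `S` of all `γ ∈ Γ` with
`Cmp C (M₀ M₄ M₀) (act γ o) o` is finite.  For a finite set `I` of indices `≥ m₀` and
`x ≥ max_{m ∈ I} 2 k_m` all `k⁻¹ h_m k`, `m ∈ I`, are in `S`; conjugation is injective, so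
`{h_m : m ∈ I}` has at most `card S` elements.  So `{h_m : m ≥ m₀}` is finite, and `h_m = h` for
infinitely many `m`.  For these `m` `κ_m = κ` is constant, `s_m = σ_m / κ ≥ r / κ`, so
`y_m = s_m⁻¹ act h⁻¹ (A_m y_m)` is bounded; `c m ≤ y_m`, so `‖c m‖` is bounded (`normal`), contradicting
`‖c m‖ → ∞`. -/
def HorStmt : Prop :=
  ∀ (n : ℕ) (C : Set (V n)) (Γ : Subgroup (GL (Fin n) ℝ)) (d : ℕ), Hyp C Γ d →
    ∀ (U : Submodule ℝ (V n)) (v a : V n) (ψ : (V n) →ₗ[ℝ] ℝ) (c : ℕ → V n)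
      (g : ℕ → GL (Fin n) ℝ) (s : ℕ → ℝ) (p : V n), Bx C Γ U v → Module.finrank ℝ U = d →
      Bd C U a → Sup C U a ψ → (∀ m, Bd C U (c m)) → (∀ m, ψ (c m) = 1) →
      Tendsto (fun m => ‖c m‖) atTop atTop → (∀ m, g m ∈ Γ) → (∀ m, 0 < s m) → p ∈ C →
      Tendsto (fun m => s m • act (g m) (a + c m + v)) atTop (𝓝 p) →
      (∀ m l, ∃ κ : ℝ, act (g m) a = κ • act (g l) a) → False

/-! ## D. Two boxes with the same `U` -/

/-- a special pair: two boxes `(U, v)`, `(U, v')` with `pr_v v' = ρ a`, `a` in the boundary -/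
structure Spc {n : ℕ} (C : Set (V n)) (Γ : Subgroup (GL (Fin n) ℝ)) (d : ℕ)
    (U : Submodule ℝ (V n)) (v v' a : V n) (ρ : ℝ) : Prop where
  box : Bx C Γ U v
  box' : Bx C Γ U v'
  dim : Module.finrank ℝ U = d
  bd : Bd C U a
  pos : 0 < ρ
  prj : ∀ p : V n →ₗ[ℝ] V n, Prj C U v p → p v' = ρ • a

/-- **Row SPF** (facts on special pairs).

Proof.  `p` from PRJ.  `a + v + v' ∉ C`: otherwise `p (a + v + v') = (1 + ρ) a` is a unit (PRF 3) and so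
`a` (UNF 1), contradiction.  (1), (2): BF2 (7) for `(U, v)`, `z = v' ∈ LamC` (BF1), and for `(U, v')`,
`z = v`.  (3) `p (v' - ρ a) = 0`; `Ind2`: `α v + β (v' - ρ a) = 0`, `β ≠ 0`: `v' = ρ a - (α/β) v ∈ Wb U v`,
`Ext v'` (BXM 5), so by BXW `v' ∈ U` (excluded by BF1 for `(U, v')`) or `v' = c v`, and then
`p v' = 0 ≠ ρ a`.  `β = 0`: `α = 0`.
(4) `y = a + v + v'` is in the face (`y - (a + v) = v'`, `(a + v) - ε y = ε (M (a + v) - v')` for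
`ε = 1/(1 + M)`); `y = s a + t v` would give `v' ∈ Wb U v`, excluded as in (3).
(5) `Bx`, `Bd`: BF2 (5), (6), `finrank`: WBF (5); `prj`: PRF (7) gives one projection with
`p' (s act g v') = ρ (s act g a)`; any other one is equal to it by PRF (6) (`Prj.pos`, `Prj.idU`,
PRF 1). -/
def SpfStmt : Prop :=
  ∀ (n : ℕ) (C : Set (V n)) (Γ : Subgroup (GL (Fin n) ℝ)) (d : ℕ), Hyp C Γ d →
    ∀ (U : Submodule ℝ (V n)) (v v' a : V n) (ρ : ℝ), Spc C Γ d U v v' a ρ →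
      (∃ M : ℝ, 0 < M ∧ M • (a + v) - v' ∈ closure C) ∧
      (∃ M : ℝ, 0 < M ∧ M • (a + v') - v ∈ closure C) ∧
      (Ind2 v (v' - ρ • a) ∧ ∀ p : V n →ₗ[ℝ] V n, Prj C U v p → p (v' - ρ • a) = 0) ∧
      (∃ y ∈ Face C (a + v), ∀ s t : ℝ, y ≠ s • a + t • v) ∧
      (∀ g ∈ Γ, ∀ s : ℝ, 0 < s → Spc C Γ d (img g U) (s • act g v) (s • act g v') (s • act g a) ρ)

/-- **Row DON** (the projection of the second apex is not zero).

Proof.  Suppose `p v' = 0`.  Triangle `(e, e', v)` of the box.  The family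
`x_m = ![e, e', 2^m v, 2^m v']` (in `Hull`) has sum `p_m ∈ C ∩ Hull` (`≥ e + e' + v`).  ZOM and LIM
(`ι = Fin 4`): on a subsequence `G_m x_{φ m} → X`, `∑ X = p`.  Omit conditions: if `∑_{j ≠ o} X_j ∈ C` then
(absorb) `M ∑_{j≠o} X_j - X_o ∈ C` for some `M > 0`, so for all large `m`
`M ∑_{j≠o} x_{φ m} j - x_{φ m} o ∈ C` (`CC.sact_mem_iff`).
`o = e`: apply `p` (`p e = e`, `p e' = e'`, `p v = p v' = 0`): `M e' - e ∈ closure C`, so `e = c e'` (BF1, last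
item), contradicting LIN.  `o = e'`: the same.
`o = 2^m v`: `M (e + e' + 2^m v') - 2^m v ∈ C`; divide by `2^m`, `m → ∞`: `M v' - v ∈ closure C`, `Ext v'`
(BXM 5): `v = c v'`, `c > 0` (salient, `v ≠ 0`), so `v' = c⁻¹ v`, excluded.  `o = 2^m v'`: `v' = c v`,
`c > 0`, excluded.  So there is an `IsPES` with four vertices, contradicting `MaxCard`. -/
def DonStmt : Prop :=
  ∀ (n : ℕ) (C : Set (V n)) (Γ : Subgroup (GL (Fin n) ℝ)) (d : ℕ), Hyp C Γ d →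
    ∀ (U : Submodule ℝ (V n)) (v v' : V n) (p : V n →ₗ[ℝ] V n), Bx C Γ U v → Bx C Γ U v' →
      Module.finrank ℝ U = d → Prj C U v p → (∀ c : ℝ, 0 < c → v' ≠ c • v) → p v' ≠ 0

/-- **Row SPZ** (existence of a special pair).

Proof.  PRJ: `p`; DON: `x = p v' ≠ 0`, `x ∈ U ∩ closure C`.  BF2 (4): `a` `Bd`, not a multiple of `x`, so
`Ind2 a x`; `c` `Bd`, not a multiple of `a`.  TZA for `(U, v)`, `(U, v')`, `a`, `c`: `T`, `U'`.
`T x = t T c`.  `T x ≠ 0`: otherwise `Sml C a x`, and for the functional `ψ` of BF3 (1) SMF (3) gives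
`ψ x = 0`, but `ψ x > 0` (BF3 4).  `t > 0`: `T x, T c ∈ closure C`, nonzero, salient.
`Spc C Γ d U' (T v) (T v') (T c) t`: for `p'` with `Prj C U' (T v) p'`, PRF (8) (`T u = t T c ∈ U'` for
`u ∈ U`): `p' (T v') = T (p v') = T x = t T c`. -/
def SpzStmt : Prop :=
  ∀ (n : ℕ) (C : Set (V n)) (Γ : Subgroup (GL (Fin n) ℝ)) (d : ℕ), Hyp C Γ d →
    ∀ (U : Submodule ℝ (V n)) (v v' : V n), Bx C Γ U v → Bx C Γ U v' →
      Module.finrank ℝ U = d → (∀ c : ℝ, 0 < c → v' ≠ c • v) →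
      ∃ (U1 : Submodule ℝ (V n)) (v1 v1' a1 : V n) (ρ : ℝ), Spc C Γ d U1 v1 v1' a1 ρ

/-- **Row PVA** (the projections of all apexes are multiples of `a`).

Proof.  `x = p w ∈ U ∩ closure C`; suppose it is not a multiple of `a`, so `Ind2 a x`.  `c` `Bd`, not a
multiple of `a`; TZA for `(U, v)`, `(U, w)`, `a`, `c`: `T`, `U'`.  By PRF (4) (`l = v`, `z = v' - ρ a`, SPF 3)
`w = x + s v + t (v' - ρ a)`.  `T v' = r T v` (TZA, SPF 1), `T a = 0`, so `T w = T x + μ T v` with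
`μ = s + t r`, `T x = τ T c ≠ 0` (as in SPZ).  So `T w ∈ Wb U' (T v)`, `Ext (T w)` (BXM 5 for
`(U', T w)`), `T w ≠ 0`: BXW gives `T w ∈ U'`, excluded (BF1 for `(U', T w)`), or `T w = b T v`: then
`(b - μ) T v = τ T c ∈ U'`, and `T v ∉ U'`, so `b = μ` and `T x = 0`, contradiction. -/
def PvaStmt : Prop :=
  ∀ (n : ℕ) (C : Set (V n)) (Γ : Subgroup (GL (Fin n) ℝ)) (d : ℕ), Hyp C Γ d →
    ∀ (U : Submodule ℝ (V n)) (v v' a : V n) (ρ : ℝ), Spc C Γ d U v v' a ρ →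
    ∀ (w : V n) (p : V n →ₗ[ℝ] V n), Bx C Γ U w → Prj C U v p → ∃ κ : ℝ, p w = κ • a

/-- **Row ACN** (`a` is determined by `U`).

Proof.  `p` for `(U, v)`, `p'` for `(U, w)` (PRJ).  PVA and PRF (4) (`l = v`, `z = v' - ρ a`): `w` and `w'`
are linear combinations of `a, v, v'`.  `c` `Bd`, not a multiple of `a`; FUN for `![a, c, v]`, `l = 1`:
`β > 0` on `C`, `≥ 0` on `closure C`, `β a = β v = 0`; `0 ≤ β v' ≤ M β (a + v) = 0` (SPF 1).  So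
`β (a + w + w') = 0`, `a + w + w' ∉ C`.  BF2 (7) for the box `(U, w)`, `z = w'`: `w' ≤ M (a + w)`.  PRF (5)
for `p'`: `p' w' = κ a`; also `p' w' = σ b`, `σ > 0`. -/
def AcnStmt : Prop :=
  ∀ (n : ℕ) (C : Set (V n)) (Γ : Subgroup (GL (Fin n) ℝ)) (d : ℕ), Hyp C Γ d →
    ∀ (U : Submodule ℝ (V n)) (v v' a w w' b : V n) (ρ σ : ℝ), Spc C Γ d U v v' a ρ →
      Spc C Γ d U w w' b σ → ∃ κ : ℝ, b = κ • a

/-- **Row HLM** (limits of special pairs along `a + c_m + v`).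

Proof.  `G_m = s_m act g_m`.  BXL for `(img g_m U, G_m v)`, `f_m = G_m (a + c_m)`: subsequence, box
`(U1, v1)`, `f_m → f1` a unit, `LimS`.  SPF: `v' ≤ M (a + v)`, `v ≤ M' (a + v')`.  `G_m v' ≤ M G_m y_m`
(`y_m = a + c_m + v`) and `G_m a ≤ G_m y_m` are bounded: subsequence `G_m v' → v1'`, `G_m a → a1`.
`y_m ≤ (1 + M') (a + c_m + v')`, so `p ≤ (1 + M') (f1 + v1')`, `f1 + v1' ∈ C`; BXL for
`(img g_m U, G_m v')`, `f_m`: box `(U1, v1')` (LSF 3).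
`a1 ∈ U1 ∩ closure C` (second half of `LimS`); `a + v ∉ C` (BF1), so `G_m (a + v) ∉ C` and `a1 + v1 ∉ C`
(`C` open): `a1` is not a unit.  `a1 ≠ 0`: `G_m c_m → f1 - a1`, and `c_m + v ∉ C` gives
`(f1 - a1) + v1 ∉ C`, while `f1 + v1 ∈ C`.
`prj`: `p0` for `(U, v)` (PRJ), `p_m` = the projection of `(img g_m U, G_m v)` with
`p_m (act g_m x) = act g_m (p0 x)` (PRF 7).  PRC with `x_m = G_m v' → v1'`: for `q` with `Prj C U1 v1 q`,
`q v1' = lim p_m (G_m v') = lim G_m (p0 v') = lim ρ G_m a = ρ a1`. -/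
def HlmStmt : Prop :=
  ∀ (n : ℕ) (C : Set (V n)) (Γ : Subgroup (GL (Fin n) ℝ)) (d : ℕ), Hyp C Γ d →
    ∀ (U : Submodule ℝ (V n)) (v v' a : V n) (ρ : ℝ), Spc C Γ d U v v' a ρ →
    ∀ (c : ℕ → V n) (g : ℕ → GL (Fin n) ℝ) (s : ℕ → ℝ) (p : V n), (∀ m, Bd C U (c m)) →
      (∀ m, g m ∈ Γ) → (∀ m, 0 < s m) → p ∈ C →
      Tendsto (fun m => s m • act (g m) (a + c m + v)) atTop (𝓝 p) →
      ∃ (φ : ℕ → ℕ) (U1 : Submodule ℝ (V n)) (v1 v1' a1 : V n), StrictMono φ ∧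
        Spc C Γ d U1 v1 v1' a1 ρ ∧ LimS (fun m => img (g (φ m)) U) U1 ∧
        Tendsto (fun m => s (φ m) • act (g (φ m)) v) atTop (𝓝 v1) ∧
        Tendsto (fun m => s (φ m) • act (g (φ m)) v') atTop (𝓝 v1') ∧
        Tendsto (fun m => s (φ m) • act (g (φ m)) a) atTop (𝓝 a1)

/-- **Row HEQ** (boxes near a special pair have the same `U`).

Proof.  Let `c` be `Bd` for `U`, not a multiple of `a`, so `Ind2 a c` and `a + c` is a unit.  Claim: for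
all large `m` `c ∈ U_m`.
FFP for `(U, v)`, `(U_m, v_m)`, `f = a`, `c`, `ε = 0`.
First alternative: DIR with `x = a + v`, `r = c` (`Ext c`, BXM 4): `c ∈ Wb (U_m) (v_m)` for large `m`; BXW
for `(U_m, v_m)`: `c ∈ U_m`, or `c = k v_m`, `k > 0`; the latter for infinitely many `m` gives
`v_m = k⁻¹ c ∈ U` and `v ∈ U` (closed), contradicting BF1.
Second alternative `Fail`: HLM for the special pair `(U, v, v', a, ρ)`, `c_m = 2^{k m} c` (`Bd`), `G_m`,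
`G_m (a + 2^{k m} c + v) → f1 + v1 ∈ C`: after passing to a subsequence `Spc C Γ d U1 v1 v1' a1 ρ`
(`U1` of `Fail` by LSF 3), `G_m a → a1`.  `G_m (v_{φ m} - v) → 0` and `G_m v → v1`, so
`G_m v_{φ m} → v1 ≠ 0`, and `ρ_m G_m v_{φ m} → v2 ≠ 0`: `ρ_m → r`, `v2 = r v1`, `r > 0` (compare norms;
salient).  So `Bx C Γ U2 v1` (BF2 5).  `G_m a_{φ m} → a1` (`G_m (a_{φ m} - a) → 0`), so `a1 ∈ U2` (second
half of `LimS`); `a1` is `Bd` for `U1`, so `a1 + v1 ∉ C` (BF1) and `a1` is `Bd` for `U2` (BF1).  SPF (4)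
and CLM: `U2 = U1`, so `Wb U2 v2 = Wb U1 v1` (WBF 3), contradiction.
Finally choose by BF2 (4) `c` and then `c'` not in `span {a, c}`: both are in `U_m` for large `m`, and
BXM (7) (TWO) gives `U_m = U`. -/
def HeqStmt : Prop :=
  ∀ (n : ℕ) (C : Set (V n)) (Γ : Subgroup (GL (Fin n) ℝ)) (d : ℕ), Hyp C Γ d →
    ∀ (U : Submodule ℝ (V n)) (v v' a : V n) (ρ : ℝ), Spc C Γ d U v v' a ρ →
    ∀ (Um : ℕ → Submodule ℝ (V n)) (vm am : ℕ → V n), (∀ m, Bx C Γ (Um m) (vm m)) →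
      (∀ m, Module.finrank ℝ (Um m) = d) → (∀ m, am m ∈ Um m) → LimS Um U →
      Tendsto vm atTop (𝓝 v) → Tendsto am atTop (𝓝 a) → ∀ᶠ m in atTop, Um m = U

/-- **Row NOI** (two boxes with the same `U` have the same apex).

Proof.  Otherwise SPZ gives a special pair; call it `(U, v, v', a, ρ)`.  `ψ` from BF3 (1); HSQ: `c_m` `Bd`,
`ψ (c_m) = 1`, `‖c_m‖ → ∞`.  `Ind2 a (c_m)`, so `y_m = a + c_m + v ∈ C ∩ Hull`.  ZOM: `φ`, `g_m`, `s_m`,
`G_m y_{φ m} → p ∈ C`.  HLM (with `c_{φ m}`): subsequence, `Spc C Γ d U1 v1 v1' a1 ρ`,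
`img g_m U → U1`, `G_m v → v1`, `G_m a → a1`.  HEQ with `U_m = img g_m U`, `v_m = G_m v`, `a_m = G_m a`
(BF2 6, WBF 5): `img g_m U = U1` for large `m`; restrict to these `m`.  SPF (5):
`Spc C Γ d U1 (G_m v) (G_m v') (G_m a) ρ` for all `m`; ACN for `m, l`: `G_m a` is a multiple of `G_l a`,
so `act (g m) a` is a multiple of `act (g l) a`.  HOR (with the subsequence of `c`): contradiction. -/
def NoiStmt : Prop :=
  ∀ (n : ℕ) (C : Set (V n)) (Γ : Subgroup (GL (Fin n) ℝ)) (d : ℕ), Hyp C Γ d →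
    ∀ (U : Submodule ℝ (V n)) (v v' : V n), Bx C Γ U v → Bx C Γ U v' →
      Module.finrank ℝ U = d → ∃ c : ℝ, 0 < c ∧ v' = c • v

end Pool.Agent.PCO
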