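import Pool.Agent.PCO.StmtsA

/-!
# PCO squad (MP_e54c4c_gt): SECTION E, boxes with a common apex, discreteness

Input from section B (helper46), in the forms `PrjF`, `ClmF`, `HorF`, `NoiF` below (they are
hypotheses of the rows, exactly as the rows `XStmt`).
-/

set_option autoImplicit false

open Matrix Filter Topology

namespace Pool.Agent.PCO

open Pool.Agent.PFS Pool.Agent.PFJ

/-- interface (row PRJ of section B): every box of maximal dimension has a monotone projection with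
kernel `L_v` -/
def PrjF : Prop :=
  ∀ (n : ℕ) (C : Set (V n)) (Γ : Subgroup (GL (Fin n) ℝ)) (d : ℕ), Hyp C Γ d →
    ∀ (U : Submodule ℝ (V n)) (v : V n), Bx C Γ U v → Module.finrank ℝ U = d →
      ∃ p : (V n) →ₗ[ℝ] (V n), Prj C U v p

/-- interface (row CLM of section B): two boxes with the same apex and a common boundary ray `a`, such
that the face of `a + v` is not the triangle side, are equal -/
def ClmF : Prop :=
  ∀ (n : ℕ) (C : Set (V n)) (Γ : Subgroup (GL (Fin n) ℝ)) (d : ℕ), Hyp C Γ d →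
    ∀ (U U' : Submodule ℝ (V n)) (v a : V n), Bx C Γ U v → Bx C Γ U' v →
      Module.finrank ℝ U = d → Module.finrank ℝ U' = d → Bd C U a → Bd C U' a →
      (∃ y ∈ Face C (a + v), ∀ α β : ℝ, y ≠ α • a + β • v) → U' = U

/-- interface (row HOR of section B): along a horosphere sequence at `a` the rays `g_m a` are not
constant -/
def HorF : Prop :=
  ∀ (n : ℕ) (C : Set (V n)) (Γ : Subgroup (GL (Fin n) ℝ)) (d : ℕ), Hyp C Γ d →
    ∀ (U : Submodule ℝ (V n)) (v a : V n) (ψ : (V n) →ₗ[ℝ] ℝ) (c : ℕ → V n)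
      (g : ℕ → GL (Fin n) ℝ) (s : ℕ → ℝ) (p : V n), Bx C Γ U v → Module.finrank ℝ U = d →
      Bd C U a → Sup C U a ψ → (∀ m, Bd C U (c m)) → (∀ m, ψ (c m) = 1) →
      Tendsto (fun m => ‖c m‖) atTop atTop → (∀ m, g m ∈ Γ) → (∀ m, 0 < s m) → p ∈ C →
      Tendsto (fun m => s m • act (g m) (a + c m + v)) atTop (𝓝 p) →
      (∀ m l, ∃ κ : ℝ, act (g m) a = κ • act (g l) a) → False

/-- interface (row NOI of section B): the apex is determined by the subspace `U` -/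
def NoiF : Prop :=
  ∀ (n : ℕ) (C : Set (V n)) (Γ : Subgroup (GL (Fin n) ℝ)) (d : ℕ), Hyp C Γ d →
    ∀ (U : Submodule ℝ (V n)) (v v' : V n), Bx C Γ U v → Bx C Γ U v' →
      Module.finrank ℝ U = d → ∃ c : ℝ, 0 < c ∧ v' = c • v

/-- **Row E1A** (first failure along the apex: the limits have the same `U`).

Proof.  Take the data of `Fail` (`c = 0`, `ε = 1`; so `G_m f → f1`, where `G_m = s_m act g_m`).
Claim `U1 ≤ U2`.  Let `y ∈ U1`.  `LimS` (first half): `z_m ∈ img (g m) U`, `z_m → y`,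
`z_m = G_m y_m`, `y_m ∈ U` (`mem_img`, `s_m ≠ 0`).  `y_m` is bounded: for large `M > 0` the vectors
`M f1 - y` and `M f1 + y` are units of `U1` (`Unt`, UNF 2), so `M f1 ∓ y + v1 ∈ C` (BF1), and this is the
limit of `G_m (M f ∓ y_m + (1 + 2^(k m)) v)` (`f + 2^k • 0 = f`), so for large `m` the argument is in `C`
and `comp` gives `M f ∓ y_m ∈ closure C`; `0 ≤ M f + y_m ≤ 2 M f`, `PCone.normal`.  On a subsequence
`ψ` `y_m → y0`, `y0 ∈ U` (closed).  `LimS Um U`: `y'_m ∈ Um m`, `y'_m → y0`.  By the last item of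
`Fail` (applied to `m ↦ y'_{φ m}` and to `m ↦ y_m`; to use it for the subsequence `ψ` only, extend by the
bound `‖G_m z‖ ≤ B ‖z‖`, which gives the same claim along subsequences directly)
`G_{ψ m} (y'_{φ ψ m}) - G_{ψ m} (y_{ψ m}) → 0`, so `G_{ψ m} (y'_{φ (ψ m)}) → y`, and `y ∈ U2` by the second
half of `LimS`.  The dimensions are equal, so `U1 = U2` (`Submodule.eq_of_le_of_finrank_eq`).
`v2` is a second apex. -/
def E1aStmt : Prop :=
  ∀ (n : ℕ) (C : Set (V n)) (Γ : Subgroup (GL (Fin n) ℝ)) (d : ℕ), Hyp C Γ d →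
    ∀ (U : Submodule ℝ (V n)) (v : V n) (Um : ℕ → Submodule ℝ (V n)) (vm : ℕ → V n) (f : V n),
      Bx C Γ U v → Module.finrank ℝ U = d → LimS Um U → Unt C U f →
      Fail C Γ d U v Um vm f 0 1 →
      ∃ (U1 : Submodule ℝ (V n)) (v1 v2 : V n), Bx C Γ U1 v1 ∧ Bx C Γ U1 v2 ∧
        Module.finrank ℝ U1 = d ∧ Wb U1 v1 ≠ Wb U1 v2

/-- **Row E1** (near boxes have the same apex).

Proof.  `f` a unit of `U` (BF1).  FFP with `f`, `c = 0`, `ε = 1` (`Unt C U (f + 0)`).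
Second alternative: E1A and NOI: `v2 = κ v1`, so `Wb U1 v2 = Wb U1 v1` (WBF 3), contradiction.
First alternative: `f + 2^j • 0 + (1 + 2^j * 1) • v = (f + v) + 2^j v`, DIR with `x = f + v`, `r = v`
(`Ext C v` by BXM 5): for all large `m` `v ∈ Wb (Um m) (vm m)`, and BXW: `v ∈ Um m` or `v = c vm m`,
`c > 0`.  If `v ∈ Um m` for infinitely many `m`, the second half of `LimS` (constant sequence along
these `m`) gives `v ∈ U`, contradicting BF1.  So for large `m` `vm m = c⁻¹ v`. -/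
def E1Stmt : Prop :=
  ∀ (n : ℕ) (C : Set (V n)) (Γ : Subgroup (GL (Fin n) ℝ)) (d : ℕ), Hyp C Γ d →
    ∀ (U : Submodule ℝ (V n)) (v : V n) (Um : ℕ → Submodule ℝ (V n)) (vm : ℕ → V n),
      Bx C Γ U v → Module.finrank ℝ U = d → (∀ m, Bx C Γ (Um m) (vm m)) →
      (∀ m, Module.finrank ℝ (Um m) = d) → LimS Um U → Tendsto vm atTop (𝓝 v) →
      ∀ᶠ m in atTop, ∃ c : ℝ, 0 < c ∧ vm m = c • v

/-- **Row E2A** (first failure along a boundary ray, same apex: a pair of boxes with a common apex and a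
common boundary ray).

Proof.  Data of `Fail` with `ε = 0`: `G_m v → v1` (`(1 + 2^k * 0) • v = v`), `G_m (f + 2^(k m) c) → f1`,
a unit of `U1`, `G_m (ρ_m vm_{φ m}) = (ρ_m κ_{φ m}) G_m v → v2`.  `v1, v2 ≠ 0` (BF1), so
`ρ_m κ_{φ m} = ‖..‖ / ‖G_m v‖ → τ := ‖v2‖ / ‖v1‖ > 0` and `v2 = τ v1`.  So `Bx C Γ U2 v1` (BF2 5), and
`U1 ≠ U2` since `Wb U2 v1 = Wb U2 v2 ≠ Wb U1 v1` (WBF 3).
`‖G_m f‖ ≤ B ‖f‖`: on a subsequence `G_m f → b`, `b ∈ closure C`, `b ∈ U1` (second half of `LimS`,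
`G_m f ∈ img (g m) U`), `2^(k m) G_m c → f1 - b =: h ∈ closure C`, `h ∈ U1`.
`b ∈ U2`: `f_m ∈ Um m`, `f_m → f` (`LimS Um U`), `G_m (f_{φ m} - f) → 0`, so `G_m f_{φ m} → b`, and the second
half of `LimS` for `U2`.
`b ≠ 0`: otherwise `h = f1` is a unit and `G_m (2^(k m) c - f + v) → f1 + v1 ∈ C`; so for some `m`
`2^(k m) c - f + v ∈ C`, `comp`: `2^(k m) c - f ∈ closure C`, and `c` is a unit (UNF 2, 1), contradiction.
`b` is not a unit of `U1`: otherwise `M b - h` is a unit for some `M > 0`, `M b - h + v1 ∈ C` is the limit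
of `G_m (M f - 2^(k m) c + v)`, so for all large `m` (of the subsequence) `M f - 2^(k m) c ∈ closure C`; divide by
`2^(k m) → ∞`: `-c ∈ closure C`, `c = 0`, contradiction.  So `Bd C U1 b`, and `b` is `Ext` (BXM 4).
`b` is not a unit of `U2`: a unit which is `Ext` spans (UNF 6), but `finrank U2 = d ≥ 3`. -/
def E2aStmt : Prop :=
  ∀ (n : ℕ) (C : Set (V n)) (Γ : Subgroup (GL (Fin n) ℝ)) (d : ℕ), Hyp C Γ d →
    ∀ (U : Submodule ℝ (V n)) (v : V n) (Um : ℕ → Submodule ℝ (V n)) (vm : ℕ → V n) (f c : V n)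
      (κ : ℕ → ℝ),
      Bx C Γ U v → Module.finrank ℝ U = d → LimS Um U → (∀ m, 0 < κ m ∧ vm m = κ m • v) →
      Unt C U f → Bd C U c → Fail C Γ d U v Um vm f c 0 →
      ∃ (U1 U2 : Submodule ℝ (V n)) (v1 b : V n), Bx C Γ U1 v1 ∧ Bx C Γ U2 v1 ∧
        Module.finrank ℝ U1 = d ∧ Module.finrank ℝ U2 = d ∧ U1 ≠ U2 ∧ Bd C U1 b ∧ Bd C U2 b

/-- **Row E4** (the common boundary ray is determined by the apex).

Proof.  (2) If `b, b'` are independent then BXM (7) gives `U2 = U1`; so they are dependent, and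
`b' = κ b` (`b ≠ 0`).
(1) By CLM every `y ∈ Face C (b + v)` is `α b + β v`.  PRJ: `p` for `(U1, v)` and `p₃` for `(U3, v)`;
both have the kernel `{x : Sml C v x}`.  `b₃ = p₃ b ∈ U3`, in `closure C`.  `b - b₃ ∈ ker p₃ = ker p`
(`p₃ (b - p₃ b) = 0` by `idU`), so `p b₃ = p b = b`; `b₃ ≠ 0`.  `p v = 0` (`Sml C v v`: `κ = 1`).
`b + v + b₃ ∉ C`: otherwise, with a unit `f` of `U1`, `M (b + v + b₃) - f ∈ closure C`, apply `p`:
`2 M b - f ∈ closure C`, so `b` is a unit (UNF), contradiction.  `b₃ ∈ LamC` (BF1 for `(U3, v)`).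
BF2 (7) (box `(U1, v)`, `a = b`): `M (b + v) - b₃ ∈ closure C`, `M > 0`.  So `b + v + b₃ ∈ Face C (b + v)`
(`ε = 1/(1+M)`), `b + v + b₃ = α b + β v`, `b₃ = α' b + β' v`; apply `p`: `b = α' b`, `α' = 1`.
`b₃ = b + β' v ∈ closure C`, `comp` for `(U1, v)`: `0 ≤ β'`.  `b = b₃ - β' v ∈ closure C`, `comp` for
`(U3, v)`: `0 ≤ -β'`.  So `β' = 0`, `b = b₃ ∈ U3`. -/
def E4Stmt : Prop :=
  ∀ (n : ℕ) (C : Set (V n)) (Γ : Subgroup (GL (Fin n) ℝ)) (d : ℕ), Hyp C Γ d →
    ∀ (U1 U2 : Submodule ℝ (V n)) (v b : V n), Bx C Γ U1 v → Bx C Γ U2 v →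
      Module.finrank ℝ U1 = d → Module.finrank ℝ U2 = d → U1 ≠ U2 → Bd C U1 b → Bd C U2 b →
      (∀ U3 : Submodule ℝ (V n), Bx C Γ U3 v → Module.finrank ℝ U3 = d → b ∈ U3) ∧
      (∀ b', Bd C U1 b' → Bd C U2 b' → ∃ κ : ℝ, b' = κ • b)

/-- **Row E5** (there is no pair of different boxes with a common apex and a common boundary ray).

Proof.  `ψ` with `Sup C U1 b ψ` (BF3).  HSQ: `c_m`.  `b`, `c_m` are independent (`ψ b = 0`, `ψ c_m = 1`), so
`b + c_m` is a unit (BF1) and `y_m = b + c_m + v ∈ C`, in `Hull` (`LamC`, BF1).  ZOM: `s_m act g_m y_{φ m} → p ∈ C`.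
BXL for the boxes `(img (g m) U1, s_m act g_m v)` (BF2 6) and `f_m = s_m act g_m (b + c_{φ m})`: subsequence,
`img (g m) U1 → U'`, `s_m act g_m v → v'`, `Bx C Γ U' v'`, `finrank U' = d` (WBF 5).
E1: for all large `m` `s_m act g_m v = κ_m v'`, `κ_m > 0`.  Restrict to these `m`.
For `m, l`: `(img (g m) U1, v')`, `(img (g m) U2, v')` are boxes (BF2 6 and 5 with `κ_m⁻¹`), different
(IMG 6), with the common boundary element `act (g m) b` (BF2 6); the same for `l`.  E4 (1) for the pair `m`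
and `U3 = img (g l) U1`, `img (g l) U2`: `act (g m) b` is in both.  It is `Ext` (BXM 4 for the box `m`),
in `closure C`, `≠ 0`, so not a unit of `img (g l) U1`, `img (g l) U2` (UNF 6, dimension `≥ 3`): it is a
common boundary element of the pair `l`.  E4 (2) for the pair `l`: `act (g m) b = κ act (g l) b`.
So HOR (for `U = U1`, `a = b`, the sequence `c_{φ m}`) gives the contradiction. -/
def E5Stmt : Prop :=
  ∀ (n : ℕ) (C : Set (V n)) (Γ : Subgroup (GL (Fin n) ℝ)) (d : ℕ), Hyp C Γ d →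
    ∀ (U1 U2 : Submodule ℝ (V n)) (v b : V n), Bx C Γ U1 v → Bx C Γ U2 v →
      Module.finrank ℝ U1 = d → Module.finrank ℝ U2 = d → U1 ≠ U2 → Bd C U1 b → Bd C U2 b →
      False

/-- **Row DSC** (discreteness of the family of boxes).

Proof.  E1: for large `m` `vm m = κ_m v`, `κ_m > 0`.  Suppose `Um m ≠ U` for infinitely many `m`.  Let
`c, c'` be independent boundary elements of `U` (BF2 4).  If `c ∈ Um m` and `c' ∈ Um m` then `Um m = U`
(BXM 7).  So one of them, say `c`, satisfies `c ∉ Um m` for infinitely many `m`; restrict to a subsequence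
`θ` of such `m` with `vm m = κ_m v` (`Filter.extraction_of_frequently_atTop`; LSF 1).  FFP for the
boxes `(Um (θ m), vm (θ m))`, a unit `f` of `U`, `c`, `ε = 0` (`f + c` is a unit, UNF 3).
First alternative: `f + 2^j c + (1 + 2^j * 0) • v = (f + v) + 2^j c`; DIR with `x = f + v`, `r = c`
(`Ext` by BXM 4): for large `m` `c ∈ Wb (Um (θ m)) (vm (θ m))`; BXW: `c ∈ Um (θ m)`, excluded, or
`c = t vm (θ m)`, a positive multiple of `v`, contradicting `v ∉ U`.
Second alternative: E2A and E5. -/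
def DscStmt : Prop :=
  ∀ (n : ℕ) (C : Set (V n)) (Γ : Subgroup (GL (Fin n) ℝ)) (d : ℕ), Hyp C Γ d →
    ∀ (U : Submodule ℝ (V n)) (v : V n) (Um : ℕ → Submodule ℝ (V n)) (vm : ℕ → V n),
      Bx C Γ U v → Module.finrank ℝ U = d → (∀ m, Bx C Γ (Um m) (vm m)) →
      (∀ m, Module.finrank ℝ (Um m) = d) → LimS Um U → Tendsto vm atTop (𝓝 v) →
      ∀ᶠ m in atTop, Um m = U ∧ ∃ c : ℝ, 0 < c ∧ vm m = c • v

end Pool.Agent.PCO
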