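import Pool.Agent.PCO.StmtsE
import Pool.Agent.NTS.StmtsE

/-!
# PCO squad (MP_e54c4c_gt): SECTION P, the periodic triangle, and the theorem for `n ≤ 5`

Rows ZB3, BP3, SE3, PZ3 are the rows ZB2, BP2, SE2, PZK of PFJ/StmtsG for codimension one boxes
(`K = 3`; landed proofs: Pool/Agent/Helper13_PFJ/ZB2.lean, BP2.lean, SE2.lean,
Pool/Agent/Helper33_PFJ/Pzk.lean), with the rows BXM, DSC in the place of the hypothesis `Full`.
-/

set_option autoImplicit false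

open Matrix Filter Topology

namespace Pool.Agent.PCO

open Pool.Agent.PFS Pool.Agent.PFJ

/-- **Row ZB3** (zooming at a box).

Proof.  `w = ![e, e', v]` is `IsPES` (BF2 1), `p_m = ∑ c_{m,i} w_i ∈ C ∩ Hull` (ELM 4, `PES.pos`).
ZOM: `G_m p_{φ m} → p ∈ C`; `x_m = (G_m (c_{φ m, i} w_i))_i` is `IsPES` (ELM 1, 2), LPS: on a subsequence
`x_m → W`, `IsPES`, `∑ W = p`.  BXL for the boxes `(img g_m U, G_m (c_{φ m, 2} v))` (BF2 5, 6) and
`f_m = G_m (c_{φ m,0} e + c_{φ m,1} e')`: subsequence, `img g_m U → U'`, `Bx C Γ U' v'`, and `v' = W 2`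
(uniqueness of limits); `finrank U' = d` (WBF 5).  `W 0, W 1 ∈ U'` (second half of `LimS`; `G_m c e ∈ img g_m U`),
in `LamC` (`IsPES`), so in `closure C`, `≠ 0`; not units: `W 0 + W 2 ∉ C` by `PES.bd`, BF1.  `Ind2` by LIN.
DSC (for `img g_m U`, `G_m (c_2 v)`, limit `(U', W 2)`): eventually `img g_m U = U'` and
`G_m (c_2 v) = κ W_2`, `κ > 0`; pass to the tail (shift `φ`, `g`, `s`). -/
def Zb3Stmt : Prop :=
  ∀ (n : ℕ) (C : Set (V n)) (Γ : Subgroup (GL (Fin n) ℝ)) (d : ℕ), Hyp C Γ d →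
    ∀ (U : Submodule ℝ (V n)) (v e e' : V n), Bx C Γ U v → Module.finrank ℝ U = d →
      Bd C U e → Bd C U e' → Ind2 e e' → ∀ c : ℕ → Fin 3 → ℝ, (∀ m i, 0 < c m i) →
      ∃ (φ : ℕ → ℕ) (g : ℕ → GL (Fin n) ℝ) (s : ℕ → ℝ) (U' : Submodule ℝ (V n))
        (W : Fin 3 → V n), StrictMono φ ∧ (∀ m, g m ∈ Γ) ∧ (∀ m, 0 < s m) ∧
        Bx C Γ U' (W 2) ∧ Module.finrank ℝ U' = d ∧ IsPES C Γ W ∧
        Bd C U' (W 0) ∧ Bd C U' (W 1) ∧ Ind2 (W 0) (W 1) ∧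
        (∀ i, Tendsto (fun m => s m • act (g m) (c (φ m) i • (![e, e', v] : Fin 3 → V n) i)) atTop
          (𝓝 (W i))) ∧
        (∀ m, img (g m) U = U') ∧ ∀ m, ∃ κ : ℝ, 0 < κ ∧ act (g m) v = κ • W 2

/-- **Row BP3** (a biproximal element of the stabiliser of a box).

Proof.  Two independent boundary elements `x0, x1` of `U` (BF2 4).  ZB3 with
`c_m = (e^m, e^{-m}, 1)`.  BPB (`Pool.Agent.PFJ.H82.bpbF`) with `U0 = U`, `U1 = U'`, `X0 = W 0`, `X1 = W 1`,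
`e_m = exp (φ m)`: the two strictness hypotheses are BF1, `span (Face C (x0 + x1)) = U` and
`Face = units` are BXM (2), (3) (`x0 + x1` is a unit, BF1); nonunits from `Bd`.  So for large `m0` and large
`m` there are `y0, y1 ∈ U ∩ closure C`, `Ind2 y0 y1`, eigenvectors of `σ = g_{m0}⁻¹ g_m` with eigenvalues
`0 < λ < μ`.  `y0, y1` are not units: EI2 (2) (`Pool.Agent.PFJ.H76e.ei2`).  `σ v`: `act g_m v = κ_m W_2`,
`act g_{m0} v = κ_{m0} W_2`, so `act σ v = (κ_m / κ_{m0}) v`.  `ν = ![λ, μ, κ_m / κ_{m0}]`. -/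
def Bp3Stmt : Prop :=
  ∀ (n : ℕ) (C : Set (V n)) (Γ : Subgroup (GL (Fin n) ℝ)) (d : ℕ), Hyp C Γ d →
    ∀ (U : Submodule ℝ (V n)) (v : V n), Bx C Γ U v → Module.finrank ℝ U = d →
      ∃ (e e' : V n) (σ : GL (Fin n) ℝ) (nu : Fin 3 → ℝ), Bd C U e ∧ Bd C U e' ∧ Ind2 e e' ∧
        σ ∈ Γ ∧ (∀ i, 0 < nu i) ∧ act σ e = nu 0 • e ∧ act σ e' = nu 1 • e' ∧
        act σ v = nu 2 • v ∧ nu 0 ≠ nu 1

/-- **Row SE3** (Selberg's centraliser trick).

Proof.  As `Pool/Agent/Helper13_PFJ/SE2.lean`.  `w = ![e, e', v]`.  ZB3 with `c_{m,i} = exp (m ℓ_i)`.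
FIX (`Pool.Agent.PFJ.H82.fixF`; `∑ c w` zooms to `∑ W ∈ C`): `g_m σ g_m⁻¹` takes finitely many values, so it
is constant on a subsequence; for `m0 < m` in it `γ = g_{m0}⁻¹ g_m` commutes with `σ`, `img γ U = U`
(`img g_m U = U' = img g_{m0} U`), and `act γ v = κ v`, `κ > 0`.  `act γ e ∈ U` is an eigenvector of `σ` with
eigenvalue `ν_0`; EI2 (1) for `U` (strict by BF1) and the eigenvectors `e, e'` (in the order of their
eigenvalues; `ν_0 ≠ ν_1`): `act γ e = c e` or `= c e'`, the latter would give `ν_0 = ν_1`; the same for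
`e'`.  So `act γ (w_i) = exp(χ_i) w_i` for all `i`.  The estimate of `∑ ℓ_i χ_i` as in SE2. -/
def Se3Stmt : Prop :=
  ∀ (n : ℕ) (C : Set (V n)) (Γ : Subgroup (GL (Fin n) ℝ)) (d : ℕ), Hyp C Γ d →
    ∀ (U : Submodule ℝ (V n)) (v e e' : V n) (σ : GL (Fin n) ℝ) (nu : Fin 3 → ℝ),
      Bx C Γ U v → Module.finrank ℝ U = d → Bd C U e → Bd C U e' → Ind2 e e' → σ ∈ Γ →
      (∀ i, 0 < nu i) → act σ e = nu 0 • e → act σ e' = nu 1 • e' → act σ v = nu 2 • v →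
      nu 0 ≠ nu 1 → ∀ ℓ : Fin 3 → ℝ, ℓ ≠ 0 → ∑ i, ℓ i = 0 →
      ∃ γ ∈ Γ, ∃ χ : Fin 3 → ℝ,
        (∀ i, act γ ((![e, e', v] : Fin 3 → V n) i) =
          Real.exp (χ i) • (![e, e', v] : Fin 3 → V n) i) ∧
        ∑ i, ℓ i * χ i ≠ 0

/-- **Row PZ3** (the periodic triangle of a box).

Proof.  BP3 gives `e, e', σ, ν`; `w = ![e, e', v]` is `IsPES` (BF2 1).  SE3; CHI (`K = 2`) with
`X = {χ : ∃ γ ∈ Γ, ∀ i, act γ (w i) = exp(χ_i) w i}`: two independent characters; ABE (`k = 2`): `A`.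
`Concl`: LIN, FRZ (`Pool.Agent.PFS.H32.frz`), MXE (`Pool.Agent.PFJ.H83.mxe`, `Ext` of all vertices: BXM 4, 5),
as in `Pool/Agent/Helper82_PFJ/FIB.lean`. -/
def Pz3Stmt : Prop :=
  ∀ (n : ℕ) (C : Set (V n)) (Γ : Subgroup (GL (Fin n) ℝ)) (d : ℕ), Hyp C Γ d →
    ∀ (U : Submodule ℝ (V n)) (v : V n), Bx C Γ U v → Module.finrank ℝ U = d →
      ∃ w : Fin (2 + 1) → V n, IsPES C Γ w ∧ w 0 ∈ U ∧ w 1 ∈ U ∧ w 2 = v ∧ Concl C Γ 2 w

/-- **Row COD** (THEOREM CO: the largest simplices of the core are triangles and a box of codimension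
one exists).

Proof.  `Hyp C Γ d` with `d = finrank (span (Face C (w 0 + w 1)))`.  EXB: a box `(U, v)`,
`finrank U = d`.  PZ3. -/
def CodStmt : Prop :=
  ∀ (n : ℕ) (C : Set (V n)) (Γ : Subgroup (GL (Fin n) ℝ)), CC C Γ → MaxCard C Γ 3 →
    ∀ w : Fin 3 → V n, IsPES C Γ w →
      3 ≤ Module.finrank ℝ (Submodule.span ℝ (Face C (w 0 + w 1))) →
      n = Module.finrank ℝ (Submodule.span ℝ (Face C (w 0 + w 1))) + 2 →
      (∀ w' : Fin 3 → V n, IsPES C Γ w' →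
        Module.finrank ℝ (Submodule.span ℝ (Face C (w' 0 + w' 1))) ≤
          Module.finrank ℝ (Submodule.span ℝ (Face C (w 0 + w 1)))) →
      ∃ v : Fin (2 + 1) → V n, IsPES C Γ v ∧ Concl C Γ 2 v

/-- **Row EDM** (the face of an edge is independent of the other vertices).

Proof.  First claim: suppose `y + ∑_{j≥2} a_j w_j = 0`, `y ∈ span F`, `F = Face C x`, `x = w_0 + w_1`
(`j ≥ 2` means `j ≠ 0`, `j ≠ 1`), and some `a_l ≠ 0`; changing the sign of everything, `a_l > 0`.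
FCE (4): `- y ≤ M x`, `M > 0`.  So `a_l w_l = -y - ∑_{j≠l} a_j w_j ≤ M x + ∑_{j≥2, j≠l} |a_j| w_j`, hence
`w_l ≤ M' ∑_{j≠l} w_j` for some `M' > 0` and `(1 + M') ∑_{j≠l} w_j ≥ ∑ w ∈ C`, contradicting `bd`.
Second claim: the map `span F × (Fin K' → ℝ) → V`, `K' + 2 = K`, `(y, a) ↦ y + ∑_j a_j w_{j+2}`, is
injective, so `finrank (span F) + K' ≤ n` (`LinearMap.finrank_le_finrank_of_injective`,
`Module.finrank_prod`). -/
def EdmStmt : Prop :=
  ∀ (n : ℕ) (C : Set (V n)), PCone C → ∀ (K' : ℕ) (w : Fin (K' + 2) → V n), PES C w →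
    (∀ y ∈ Submodule.span ℝ (Face C (w 0 + w 1)), ∀ a : Fin K' → ℝ,
      y + ∑ j, a j • w j.succ.succ = 0 → y = 0 ∧ a = 0) ∧
    Module.finrank ℝ (Submodule.span ℝ (Face C (w 0 + w 1))) + K' ≤ n

/-- **Row EXK** (zoom at an edge with a large face, any `K`; compare row EXB).

Proof.  `x = w_0 + w_1`, `U0 = span (Face C x)`, `t_m = 1/(m+1)`, `p_m = x + t_m ∑_{j≥2} w_j ∈ C ∩ Hull`
(ELM 4).  ZOM: `G_m p_{φ m} → p ∈ C`; the family `G_m w_0, G_m w_1, t_m G_m w_j` is `IsPES`; LPS: limit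
`W`.  LSC: `img g_m U0 → U`, same dimension.  `T y = lim G_m y` for `y ∈ U0` (bounded since
`± y ≤ M x ≤ M p_m`, FCE 4; on a subsequence for a basis).  As in EXB: `T y ∈ U`; `T y ∈ closure C` implies
`y ∈ closure C`; `T` is injective, so `T U0 = U`.
`L 0 = U`, `L a = span {W (a+1)}` for `1 ≤ a`, `a + 1 < K`, `L (K-1) = ⊥` if `K ≥ 2`;
`β i = i - 1` (natural subtraction).  `comp`: let `y' + ∑_{j≥2} τ_j W_j ∈ closure C`, `y' = T y ∈ U`.
For `ε > 0` and large `m`: `y + ε x + ∑ (τ_j + ε) t_m w_j ∈ C`; `m → ∞`, `ε → 0`: `y ∈ closure C`, so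
`y' ∈ closure C`.  If `τ_l < 0`: `ε = -τ_l/2`: for some `m`
`ε t_m w_l ≤ y + ε x + ∑_{j≥2, j≠l} |τ_j + ε| t_m w_j ≤ M ∑_{j≠l} w_j` (`y ≤ M' x`), so
`∑_{j≠l} w_j ∈ C` (scaling), contradicting `bd`.  So all `τ_j W_j ∈ closure C`.  The other fields: `two`
from `finrank U = finrank U0 ≥ 3` (only `β 0 = β 1`), `one`: single vertices, `bot`, `three`.
Dimension: `finrank (⨆ L) = finrank U0 + K - 2`: by BFA (1) the sum is direct; only the following is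
claimed: if `finrank U0 + K' = n` then `⨆ L = ⊤` (with EDM for `W`: the map
`U × (Fin K' → ℝ) → V` is injective, by `comp` and salient, so it is onto). -/
def ExkStmt : Prop :=
  ∀ (n : ℕ) (C : Set (V n)) (Γ : Subgroup (GL (Fin n) ℝ)), CC C Γ → ∀ (K' : ℕ), 1 ≤ K' →
    MaxCard C Γ (K' + 2) → ∀ w : Fin (K' + 2) → V n, IsPES C Γ w →
      3 ≤ Module.finrank ℝ (Submodule.span ℝ (Face C (w 0 + w 1))) →
      Module.finrank ℝ (Submodule.span ℝ (Face C (w 0 + w 1))) + K' = n →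
      ∃ (L : Fin (K' + 2) → Submodule ℝ (V n)) (W : Fin (K' + 2) → V n)
        (β : Fin (K' + 2) → Fin (K' + 2)), Box C Γ L W β ∧ (⨆ a, L a) = ⊤

/-- **Row TOP** (the edge face fills the space: the join theorem applies with `W = V`).

Proof.  EXK and `Pool.Agent.PFJ.H82.fibF` (`k = K' + 1`): a subspace `W` with `TrLim Γ ⊤ W` has dimension
`n`, so `W = ⊤` and `Full C W` is trivial (see the end of `low` in `Pool/Agent/Helper82_PFJ/LD.lean`). -/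
def TopStmt : Prop :=
  ∀ (n : ℕ) (C : Set (V n)) (Γ : Subgroup (GL (Fin n) ℝ)), CC C Γ → ∀ (K' : ℕ), 1 ≤ K' →
    MaxCard C Γ (K' + 2) → ∀ w : Fin (K' + 2) → V n, IsPES C Γ w →
      3 ≤ Module.finrank ℝ (Submodule.span ℝ (Face C (w 0 + w 1))) →
      Module.finrank ℝ (Submodule.span ℝ (Face C (w 0 + w 1))) + K' = n →
      ∃ v : Fin (K' + 1 + 1) → V n, Concl C Γ (K' + 1) v

/-- **Row N5** (the conclusion of Q1 for `n ≤ 5`).

Proof.  `n ≤ 4`: `Pool.Agent.PFJ.H82.lowF`.  Let `n = 5`.  MXK: `k ≥ 2`, `MaxCard C Γ (k + 1)`, a top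
`w : Fin (k + 1) → V`.  If all `IsPES` with `k + 1` vertices have trivial edges: Theorem E
(`FaeStmt`) with `T w = IsPES C Γ w` (`FamE` by ELM).  Otherwise there are a top `w`, `i ≠ j`,
`y ∈ closure C`, `M (w_i + w_j) - y ∈ closure C`, `y ∉ span {w_i, w_j}`; after a permutation (ELM 3)
`i = 0`, `j = 1`.  Write `k + 1 = K' + 2`, `K' ≥ 1`.  `x = w_0 + w_1`, `w_0, w_1, y` are in the span of
`Face C x` (`x`, `x + w_0`, `x + w_1`, `x + y` are in it) and independent (LIN), so `finrank ≥ 3`, and EDM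
gives `finrank + K' ≤ 5`.  So `K' ≤ 2`.  If `K' = 2`: `finrank = 3`, TOP.  If `K' = 1`: let `w` be a top
triangle with the largest `finrank (span (Face C (w 0 + w 1)))` (bounded by `4`, EDM); it is `3` or `4`:
`4`: TOP, `3`: COD. -/
def N5Stmt : Prop :=
  ∀ (n : ℕ) (C : Set (V n)) (Γ : Subgroup (GL (Fin n) ℝ)), CC C Γ → n ≤ 5 →
    (∃ w : Fin 3 → V n, IsPES C Γ w) →
    ∃ k : ℕ, 2 ≤ k ∧ ∃ v : Fin (k + 1) → V n, Concl C Γ k v

end Pool.Agent.PCO
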